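import Pool.Agent.Q181.RF.Meas

set_option autoImplicit false

namespace Pool.Agent.Q181.RF

open Real

lemma bo_has {K : ℝ → ℝ} {z : ℝ → ℂ} {k' x' y' : ℝ} (hK : HasDerivAt K k' 0)
    (hx : HasDerivAt (fun t => (z t).re) x' 0) (hy : HasDerivAt (fun t => (z t).im) y' 0)
    (hk : K 0 * k' = 0) (hK1 : |K 0| < 1) (hD : 1 + K 0 * (z 0).re ≠ 0) :
    HasDerivAt (fun t => (bo (K t) (z t)).re)
      (((x' + k') * (1 + K 0 * (z 0).re) - ((z 0).re + K 0) * (k' * (z 0).re + K 0 * x')) /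
        (1 + K 0 * (z 0).re) ^ 2) 0 ∧
    HasDerivAt (fun t => (bo (K t) (z t)).im)
      ((y' * √(1 - K 0 ^ 2) * (1 + K 0 * (z 0).re) -
        (z 0).im * √(1 - K 0 ^ 2) * (k' * (z 0).re + K 0 * x')) /
        (1 + K 0 * (z 0).re) ^ 2) 0 := by
  have hden : HasDerivAt (fun t => 1 + K t * (z t).re) (k' * (z 0).re + K 0 * x') 0 :=
    (hK.mul hx).const_add 1
  have hs : HasDerivAt (fun t => √(1 - K t ^ 2)) 0 0 := by
    have h1 : HasDerivAt (fun t => 1 - K t ^ 2) (-((2 : ℕ) * K 0 ^ (2 - 1) * k')) 0 :=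
      (hK.pow 2).const_sub 1
    have h2 := h1.sqrt (one_sub_sq_pos hK1).ne'
    have h3 : -((2 : ℕ) * K 0 ^ (2 - 1) * k') / (2 * √(1 - K 0 ^ 2)) = 0 := by
      have : -(((2 : ℕ) : ℝ) * K 0 ^ (2 - 1) * k') = 0 := by
        have : (2 - 1 : ℕ) = 1 := rfl
        rw [this, pow_one, mul_assoc, hk]
        simp
      rw [this, zero_div]
    rw [h3] at h2
    exact h2
  constructor
  · exact (hx.add hK).div hden hD
  · have h4 := (hy.mul hs).div hden hD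
    rw [mul_zero, add_zero] at h4
    exact h4

lemma ps_has {c : ℝ} {z : ℝ → ℂ} {x' y' : ℝ}
    (hx : HasDerivAt (fun t => (z t).re) x' 0) (hy : HasDerivAt (fun t => (z t).im) y' 0)
    (hn : 0 < (z 0).re ^ 2 + c ^ 2 * (z 0).im ^ 2)
    (h0 : (z 0).re * x' + c ^ 2 * (z 0).im * y' = 0) :
    HasDerivAt (fun t => (ps c (z t)).re) (x' / √((z 0).re ^ 2 + c ^ 2 * (z 0).im ^ 2)) 0 ∧
    HasDerivAt (fun t => (ps c (z t)).im) (c * y' / √((z 0).re ^ 2 + c ^ 2 * (z 0).im ^ 2)) 0 := by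
  have hs : HasDerivAt (fun t => √((z t).re ^ 2 + c ^ 2 * (z t).im ^ 2)) 0 0 := by
    have h1 : HasDerivAt (fun t => (z t).re ^ 2 + c ^ 2 * (z t).im ^ 2)
        ((2 : ℕ) * (z 0).re ^ (2 - 1) * x' + c ^ 2 * ((2 : ℕ) * (z 0).im ^ (2 - 1) * y')) 0 :=
      (hx.pow 2).add ((hy.pow 2).const_mul (c ^ 2))
    have h2 := h1.sqrt hn.ne'
    have h3 : (((2 : ℕ) * (z 0).re ^ (2 - 1) * x' + c ^ 2 * ((2 : ℕ) * (z 0).im ^ (2 - 1) * y')))
        = 0 := by
      have : (2 - 1 : ℕ) = 1 := rfl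
      rw [this, pow_one, pow_one]
      push_cast
      linear_combination 2 * h0
    rw [h3, zero_div] at h2
    exact h2
  have hne : √((z 0).re ^ 2 + c ^ 2 * (z 0).im ^ 2) ≠ 0 := (Real.sqrt_pos.2 hn).ne'
  have key : ∀ a b n : ℝ, n ≠ 0 → (a * n - b * 0) / n ^ 2 = a / n := by
    intro a b n hn
    field_simp
    ring
  constructor
  · have h4 := hx.div hs hne
    rw [key _ _ _ hne] at h4
    exact h4
  · have h4 := (hy.const_mul c).div hs hne
    rw [key _ _ _ hne] at h4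
    exact h4

/-- derivative of the fibre map at a vertex -/
lemma sh_vtx {K : ℝ → ℝ} {z : ℝ → ℂ} {y' : ℝ} (hK : HasDerivAt K 0 0)
    (hx : HasDerivAt (fun t => (z t).re) 0 0) (hy : HasDerivAt (fun t => (z t).im) y' 0)
    (hK1 : |K 0| < 1) (hz : (z 0).re ^ 2 = 1) (hz' : (z 0).im = 0) :
    HasDerivAt (fun t => (sh (1 / 2) (K t) (z t)).re) 0 0 ∧
    HasDerivAt (fun t => (sh (1 / 2) (K t) (z t)).im)
      (1 / 2 * ((1 - K 0 * (z 0).re) / (1 + K 0 * (z 0).re)) * y') 0 := by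
  have hU : Un (z 0) := by
    unfold Un; rw [hz, hz']; norm_num
  have hD := den_pos hK1 hU
  obtain ⟨a1, a2⟩ := bo_has hK hx hy (by ring) hK1 hD.ne'
  have hb : bo (K 0) (z 0) = z 0 := by
    apply Complex.ext
    · simp only [bo]
      rw [div_eq_iff hD.ne']
      linear_combination (-(K 0)) * hz
    · simp only [bo]
      rw [hz']; simp
  set w : ℝ → ℂ := fun t => bo (K t) (z t) with hw
  have hw0 : w 0 = z 0 := hb
  have hn : (w 0).re ^ 2 + (1 / 2) ^ 2 * (w 0).im ^ 2 = 1 := by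
    rw [hw0, hz', hz]; norm_num
  have e1 : ((0 + 0) * (1 + K 0 * (z 0).re) - ((z 0).re + K 0) * (0 * (z 0).re + K 0 * 0)) /
        (1 + K 0 * (z 0).re) ^ 2 = 0 := by
    have : ((0 : ℝ) + 0) * (1 + K 0 * (z 0).re) - ((z 0).re + K 0) * (0 * (z 0).re + K 0 * 0)
      = 0 := by ring
    rw [this, zero_div]
  rw [e1] at a1
  obtain ⟨b1, b2⟩ := ps_has (c := 1 / 2) (z := w) a1 a2 (by rw [hn]; norm_num)
    (by rw [hw0, hz']; ring)
  rw [hn, Real.sqrt_one, div_one] at b1 b2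
  set v : ℝ → ℂ := fun t => ps (1 / 2) (w t) with hv
  have hv0 : v 0 = z 0 := by
    show ps (1 / 2) (w 0) = z 0
    rw [hw0]
    apply Complex.ext
    · simp only [ps]
      rw [hz', hz]; simp
    · simp only [ps]
      rw [hz']; simp
  have hDv : 1 + K 0 * (v 0).re ≠ 0 := by rw [hv0]; exact hD.ne'
  obtain ⟨c1, c2⟩ := bo_has (z := v) hK b1 b2 (by ring) hK1 hDv
  rw [hv0] at c1 c2
  constructor
  · rw [e1] at c1
    exact c1
  · refine HasDerivAt.congr_deriv (f := fun t => (sh (1 / 2) (K t) (z t)).im) c2 ?_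
    have h3 : √(1 - K 0 ^ 2) ^ 2 = 1 - K 0 ^ 2 := Real.sq_sqrt (one_sub_sq_pos hK1).le
    rw [hz']
    have h4 : (1 - K 0 * (z 0).re) * (1 + K 0 * (z 0).re) = √(1 - K 0 ^ 2) ^ 2 := by
      rw [h3]; linear_combination (-(K 0) ^ 2) * hz
    have h5 := hD.ne'
    generalize √(1 - K 0 ^ 2) = s at *
    have h6 : (1 - K 0 * (z 0).re) = s ^ 2 / (1 + K 0 * (z 0).re) := by
      rw [eq_div_iff h5]; exact h4
    rw [h6]
    generalize 1 + K 0 * (z 0).re = D at *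
    field_simp
    ring

/-- derivative of the fibre map at a centre -/
lemma sh_cen {K : ℝ → ℝ} {z : ℝ → ℂ} {x' k' : ℝ} (hK : HasDerivAt K k' 0)
    (hx : HasDerivAt (fun t => (z t).re) x' 0) (hy : HasDerivAt (fun t => (z t).im) 0 0)
    (hK0 : K 0 = 0) (hz : (z 0).re = 0) (hz' : (z 0).im ^ 2 = 1) :
    HasDerivAt (fun t => (sh (1 / 2) (K t) (z t)).re) (2 * x' + 3 * k') 0 ∧
    HasDerivAt (fun t => (sh (1 / 2) (K t) (z t)).im) 0 0 := by
  have hK1 : |K 0| < 1 := by rw [hK0, abs_zero]; norm_num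
  obtain ⟨a1, a2⟩ := bo_has hK hx hy (by rw [hK0]; ring) hK1 (by rw [hK0]; norm_num)
  have hb : ∀ w : ℂ, bo 0 w = w := by
    intro w
    apply Complex.ext
    · simp [bo]
    · simp [bo]
  set w : ℝ → ℂ := fun t => bo (K t) (z t) with hw
  have hw0 : w 0 = z 0 := by
    show bo (K 0) (z 0) = z 0
    rw [hK0, hb]
  have e1 : ((x' + k') * (1 + K 0 * (z 0).re) - ((z 0).re + K 0) * (k' * (z 0).re + K 0 * x')) /
        (1 + K 0 * (z 0).re) ^ 2 = x' + k' := by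
    rw [hK0, hz]; norm_num
  have e2 : (0 * √(1 - K 0 ^ 2) * (1 + K 0 * (z 0).re) -
        (z 0).im * √(1 - K 0 ^ 2) * (k' * (z 0).re + K 0 * x')) /
        (1 + K 0 * (z 0).re) ^ 2 = 0 := by
    rw [hK0, hz]; norm_num
  rw [e1] at a1
  rw [e2] at a2
  have hs : √((w 0).re ^ 2 + (1 / 2) ^ 2 * (w 0).im ^ 2) = 1 / 2 := by
    rw [hw0, hz, hz', Real.sqrt_eq_iff_mul_self_eq (by norm_num) (by norm_num)]
    norm_num
  obtain ⟨b1, b2⟩ := ps_has (c := 1 / 2) (z := w) a1 a2 (by rw [hw0, hz, hz']; norm_num)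
    (by rw [hw0, hz]; ring)
  rw [hs] at b1 b2
  set v : ℝ → ℂ := fun t => ps (1 / 2) (w t) with hv
  have hv0 : v 0 = z 0 := by
    show ps (1 / 2) (w 0) = z 0
    rw [hw0] at hs ⊢
    apply Complex.ext
    · simp only [ps]
      rw [hs, hz]; simp
    · simp only [ps]
      rw [hs]; ring
  obtain ⟨c1, c2⟩ := bo_has (z := v) hK b1 b2 (by rw [hK0]; ring) hK1 (by rw [hK0]; norm_num)
  constructor
  · refine HasDerivAt.congr_deriv (f := fun t => (sh (1 / 2) (K t) (z t)).re) c1 ?_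
    rw [hv0, hK0, hz]
    ring
  · refine HasDerivAt.congr_deriv (f := fun t => (sh (1 / 2) (K t) (z t)).im) c2 ?_
    rw [hv0, hK0, hz]
    norm_num

end Pool.Agent.Q181.RF
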