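import Pool.Agent.Q181.RF.Maps

set_option autoImplicit false

namespace Pool.Agent.Q181.RF

open scoped Manifold ContDiff
open Complex Metric Module

attribute [local instance] finrank_real_complex_fact'

lemma Un_iff (z : ℂ) : Un z ↔ ‖z‖ = 1 := by
  rw [Un, ← sq_eq_sq₀ (norm_nonneg z) zero_le_one, one_pow, ← Complex.normSq_eq_norm_sq,
    Complex.normSq_apply]
  constructor <;> intro h <;> linarith

lemma Un_coe (z : Circle) : Un (z : ℂ) := (Un_iff _).2 (Circle.norm_coe z)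

/-- the point of the circle -/
noncomputable def toC (z : ℂ) (h : Un z) : Circle := ⟨z, by
  rw [Submonoid.unitSphere]
  show z ∈ sphere (0 : ℂ) 1
  rw [mem_sphere_zero_iff_norm]
  exact (Un_iff z).1 h⟩

@[simp] lemma coe_toC (z : ℂ) (h : Un z) : ((toC z h : Circle) : ℂ) = z := rfl

abbrev T2 := Circle × Circle

lemma par_lt {l : ℝ} (hl : |l| < 1) (w : Circle) : |l * (w : ℂ).re| < 1 := by
  rw [abs_mul]
  have h1 := (Un_coe w).re_le
  nlinarith [abs_nonneg l, abs_nonneg (w : ℂ).re]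

/-- the shear map of the torus -/
noncomputable def shearFun (c l : ℝ) (hc : 0 < c) (hl : |l| < 1) (p : T2) : T2 :=
  (toC (sh c (l * (p.2 : ℂ).re) (p.1 : ℂ)) (sh_unit hc (par_lt hl p.2) (Un_coe p.1)), p.2)

lemma shearFun_inv {c l : ℝ} (hc : 0 < c) (hl : |l| < 1) (p : T2) :
    shearFun c⁻¹ (-l) (inv_pos.2 hc) (by rwa [abs_neg]) (shearFun c l hc hl p) = p := by
  apply Prod.ext
  · apply Circle.ext
    simp only [shearFun, coe_toC]
    have := sh_inv hc (par_lt hl p.2) (Un_coe p.1)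
    rwa [← neg_mul] at this
  · rfl

lemma shearFun_contMDiff {c l : ℝ} (hc : 0 < c) (hl : |l| < 1) :
    ContMDiff ((𝓡 1).prod (𝓡 1)) ((𝓡 1).prod (𝓡 1)) ω (shearFun c l hc hl) := by
  apply ContMDiff.prodMk _ contMDiff_snd
  have h1 : ContMDiff ((𝓡 1).prod (𝓡 1)) 𝓘(ℝ, ℂ) ω
      (fun p : T2 => sh c (l * (p.2 : ℂ).re) (p.1 : ℂ)) := by
    have hcoe : ContMDiff (𝓡 1) 𝓘(ℝ, ℂ) ω (fun z : Circle => (z : ℂ)) := contMDiff_coe_sphere
    have hι : ContMDiff ((𝓡 1).prod (𝓡 1)) 𝓘(ℝ, ℂ × ℂ) ω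
        (fun p : T2 => ((p.1 : ℂ), (p.2 : ℂ))) :=
      (hcoe.comp contMDiff_fst).prodMk_space (hcoe.comp contMDiff_snd)
    intro p
    have hG : ContDiffAt ℝ ω (fun q : ℂ × ℂ => sh c (l * q.2.re) q.1) ((p.1 : ℂ), (p.2 : ℂ)) := by
      apply sh_contDiffAt hc
      · exact contDiffAt_const.mul (contDiff_re.contDiffAt.comp _ contDiffAt_snd)
      · exact contDiffAt_fst
      · exact par_lt hl p.2
      · exact Un_coe p.1
    exact hG.contMDiffAt.comp p hι.contMDiffAt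
  exact h1.codRestrict_sphere (fun p => by
    rw [mem_sphere_zero_iff_norm]
    exact (Un_iff _).1 (sh_unit hc (par_lt hl p.2) (Un_coe p.1)))

/-- the shear as a real analytic diffeomorphism -/
noncomputable def shear (c l : ℝ) (hc : 0 < c) (hl : |l| < 1) :
    T2 ≃ₘ^ω⟮(𝓡 1).prod (𝓡 1), (𝓡 1).prod (𝓡 1)⟯ T2 where
  toFun := shearFun c l hc hl
  invFun := shearFun c⁻¹ (-l) (inv_pos.2 hc) (by rwa [abs_neg])
  left_inv := shearFun_inv hc hl
  right_inv := by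
    intro p
    have h := shearFun_inv (inv_pos.2 hc) (show |-l| < 1 by rwa [abs_neg]) p
    simp only [inv_inv, neg_neg] at h
    exact h
  contMDiff_toFun := shearFun_contMDiff hc hl
  contMDiff_invFun := shearFun_contMDiff (inv_pos.2 hc) (by rwa [abs_neg])

lemma hk1 : |(-(17 / 18 : ℝ))| < 1 := by rw [abs_neg, abs_of_pos] <;> norm_num
lemma hk2 : |(17 / 18 : ℝ)| < 1 := by rw [abs_of_pos] <;> norm_num

/-- the swap of the two factors -/
noncomputable def sw : T2 ≃ₘ^ω⟮(𝓡 1).prod (𝓡 1), (𝓡 1).prod (𝓡 1)⟯ T2 :=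
  Diffeomorph.prodComm (𝓡 1) (𝓡 1) Circle Circle ω

/-- first half step -/
noncomputable def T1 : T2 ≃ₘ^ω⟮(𝓡 1).prod (𝓡 1), (𝓡 1).prod (𝓡 1)⟯ T2 :=
  shear (1 / 2) (-(17 / 18)) (by norm_num) hk1

/-- second half step -/
noncomputable def T2' : T2 ≃ₘ^ω⟮(𝓡 1).prod (𝓡 1), (𝓡 1).prod (𝓡 1)⟯ T2 :=
  (sw.trans (shear (1 / 2) (17 / 18) (by norm_num) hk2)).trans sw

/-- **The diffeomorphism.** -/
noncomputable def f : T2 ≃ₘ^ω⟮(𝓡 1).prod (𝓡 1), (𝓡 1).prod (𝓡 1)⟯ T2 := T1.trans T2'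

lemma T1_fst (p : T2) : ((T1 p).1 : ℂ) = sh (1 / 2) (-(17 / 18) * (p.2 : ℂ).re) p.1 := rfl
lemma T1_snd (p : T2) : (T1 p).2 = p.2 := rfl
lemma T2_fst (p : T2) : (T2' p).1 = p.1 := rfl
lemma T2_snd (p : T2) : ((T2' p).2 : ℂ) = sh (1 / 2) (17 / 18 * (p.1 : ℂ).re) p.2 := rfl
lemma f_apply (p : T2) : f p = T2' (T1 p) := rfl

end Pool.Agent.Q181.RF
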