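import Pool.Agent.Q181.RF.Diffeo

set_option autoImplicit false

namespace Pool.Agent.Q181.RF

open MeasureTheory

lemma ps_im_le {c : ℝ} (hc : 0 < c) (hc1 : c < 1) {z : ℂ} (h : Un z) :
    |(ps c z).im| ≤ |z.im| ∧ (|(ps c z).im| = |z.im| → z.im = 0 ∨ z.re = 0) := by
  have h1 := nrm_pos hc h
  set n := √(z.re ^ 2 + c ^ 2 * z.im ^ 2) with hn
  have hnp : 0 < n := Real.sqrt_pos.2 h1
  have h3 : n ^ 2 = z.re ^ 2 + c ^ 2 * z.im ^ 2 := Real.sq_sqrt h1.le
  have hcn : c ≤ n := by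
    apply le_of_sq_le_sq _ hnp.le
    rw [h3]
    unfold Un at h
    have h5 : z.im ^ 2 = 1 - z.re ^ 2 := by linarith
    rw [h5]
    have h6 : 0 ≤ (1 - c ^ 2) * z.re ^ 2 := by
      apply mul_nonneg _ (sq_nonneg _)
      nlinarith
    linarith
  have h4 : (ps c z).im = (c / n) * z.im := by
    simp only [ps]
    rw [← hn]
    ring
  rw [h4, abs_mul, abs_of_pos (by positivity)]
  have h5 : c / n ≤ 1 := (div_le_one hnp).2 hcn
  refine ⟨by nlinarith [abs_nonneg z.im], ?_⟩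
  intro h6
  by_cases h0 : z.im = 0
  · exact Or.inl h0
  · right
    have h7 : 0 < |z.im| := abs_pos.2 h0
    have h8 : c / n = 1 := by
      have : (c / n - 1) * |z.im| = 0 := by linarith
      rcases mul_eq_zero.1 this with h9 | h9
      · linarith
      · exact absurd h9 h7.ne'
    rw [div_eq_one_iff_eq hnp.ne'] at h8
    rw [← h8] at h3
    unfold Un at h
    have h10 : (1 - c ^ 2) * z.re ^ 2 = 0 := by nlinarith
    have h11 : (1 - c ^ 2) ≠ 0 := by nlinarith
    rcases mul_eq_zero.1 h10 with h12 | h12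
    · exact absurd h12 h11
    · exact pow_eq_zero_iff (two_ne_zero) |>.1 h12

/-- fibre Lyapunov inequality -/
lemma fib {c J : ℝ} (hc : 0 < c) (hc1 : c < 1) (hJ : |J| < 1) {z : ℂ} (h : Un z) :
    |(sh c J z).im| / (1 - J * (sh c J z).re) ≤ |z.im| / (1 + J * z.re) ∧
    (|(sh c J z).im| / (1 - J * (sh c J z).re) = |z.im| / (1 + J * z.re) →
      z.im = 0 ∨ (z.re = -J ∧ (sh c J z).re = J)) := by
  have hd := den_pos hJ h
  have h2 := one_sub_sq_pos hJ
  set e := √(1 - J ^ 2) with he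
  have hep : 0 < e := Real.sqrt_pos.2 h2
  have h3 : e ^ 2 = 1 - J ^ 2 := Real.sq_sqrt h2.le
  set z1 := bo J z with hz1
  have u1 : Un z1 := bo_unit hJ h
  set z2 := ps c z1 with hz2
  have u2 : Un z2 := ps_unit hc u1
  have hd2 := den_pos hJ u2
  have e1 : |z1.im| = e * (|z.im| / (1 + J * z.re)) := by
    rw [hz1]
    simp only [bo]
    rw [← he, abs_div, abs_mul, abs_of_pos hep, abs_of_pos hd]
    ring
  have e3 : (sh c J z).re = (z2.re + J) / (1 + J * z2.re) := rfl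
  have e4 : (sh c J z).im = z2.im * e / (1 + J * z2.re) := rfl
  have e5 : 1 - J * (sh c J z).re = e ^ 2 / (1 + J * z2.re) := by
    rw [e3, h3]
    field_simp
    ring
  have e6 : |(sh c J z).im| / (1 - J * (sh c J z).re) = |z2.im| / e := by
    rw [e5, e4, abs_div, abs_mul, abs_of_pos hep, abs_of_pos hd2]
    field_simp
  have hps := ps_im_le hc hc1 u1
  rw [← hz2] at hps
  have e7 : |z.im| / (1 + J * z.re) = |z1.im| / e := by
    rw [e1]
    field_simp
  rw [e6, e7]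
  refine ⟨div_le_div_of_nonneg_right hps.1 hep.le, ?_⟩
  intro h8
  have h9 : |z2.im| = |z1.im| := by
    field_simp at h8
    exact h8
  rcases hps.2 h9 with h10 | h10
  · left
    rw [h10, abs_zero] at e1
    have h11 : |z.im| / (1 + J * z.re) = 0 := by
      rcases mul_eq_zero.1 e1.symm with h12 | h12
      · exact absurd h12 hep.ne'
      · exact h12
    rcases div_eq_zero_iff.1 h11 with h12 | h12
    · exact abs_eq_zero.1 h12
    · exact absurd h12 hd.ne'
  · right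
    have h11 : z.re = -J := by
      have : z1.re = (z.re + J) / (1 + J * z.re) := rfl
      rw [h10] at this
      rcases div_eq_zero_iff.1 this.symm with h12 | h12
      · linarith
      · exact absurd h12 hd.ne'
    refine ⟨h11, ?_⟩
    have h12 : z2.re = 0 := by
      rw [hz2]
      simp only [ps]
      rw [h10, zero_div]
    rw [e3, h12]
    simp

/-- Lyapunov function -/
noncomputable def L (p : T2) : ℝ :=
  |(p.1 : ℂ).im| * |(p.2 : ℂ).im| / (1 - 17 / 18 * (p.1 : ℂ).re * (p.2 : ℂ).re)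

/-- intermediate Lyapunov function -/
noncomputable def L' (p : T2) : ℝ :=
  |(p.1 : ℂ).im| * |(p.2 : ℂ).im| / (1 + 17 / 18 * (p.1 : ℂ).re * (p.2 : ℂ).re)

lemma L_T1 (p : T2) : L' (T1 p) ≤ L p ∧ (L' (T1 p) = L p →
    (p.1 : ℂ).im = 0 ∨ (p.2 : ℂ).im = 0 ∨
      ((p.1 : ℂ).re = 17 / 18 * (p.2 : ℂ).re ∧ ((T1 p).1 : ℂ).re = -(17 / 18) * (p.2 : ℂ).re)) := by
  have hf := fib (c := 1 / 2) (by norm_num) (by norm_num) (par_lt hk1 p.2) (Un_coe p.1)
  rw [← T1_fst] at hf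
  set q := (p.2 : ℂ).re with hq
  have e1 : L' (T1 p) = |(p.2 : ℂ).im| * (|((T1 p).1 : ℂ).im| /
      (1 - -(17 / 18) * q * ((T1 p).1 : ℂ).re)) := by
    rw [L', T1_snd, ← hq]
    ring
  have e2 : L p = |(p.2 : ℂ).im| * (|(p.1 : ℂ).im| / (1 + -(17 / 18) * q * (p.1 : ℂ).re)) := by
    rw [L, ← hq]
    ring
  rw [e1, e2]
  refine ⟨mul_le_mul_of_nonneg_left hf.1 (abs_nonneg _), ?_⟩
  intro h
  by_cases h0 : (p.2 : ℂ).im = 0
  · exact Or.inr (Or.inl h0)
  · have h1 : |(p.2 : ℂ).im| ≠ 0 := abs_ne_zero.2 h0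
    have h2 := mul_left_cancel₀ h1 h
    rcases hf.2 h2 with h3 | h3
    · exact Or.inl h3
    · refine Or.inr (Or.inr ⟨?_, h3.2⟩)
      rw [h3.1]; ring

lemma L_T2 (p : T2) : L (T2' p) ≤ L' p ∧ (L (T2' p) = L' p →
    (p.1 : ℂ).im = 0 ∨ (p.2 : ℂ).im = 0 ∨ (p.2 : ℂ).re = -(17 / 18 * (p.1 : ℂ).re)) := by
  have hf := fib (c := 1 / 2) (by norm_num) (by norm_num) (par_lt hk2 p.1) (Un_coe p.2)
  rw [← T2_snd] at hf
  set q := (p.1 : ℂ).re with hq
  have e1 : L (T2' p) = |(p.1 : ℂ).im| * (|((T2' p).2 : ℂ).im| /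
      (1 - 17 / 18 * q * ((T2' p).2 : ℂ).re)) := by
    rw [L, T2_fst, ← hq]
    ring
  have e2 : L' p = |(p.1 : ℂ).im| * (|(p.2 : ℂ).im| / (1 + 17 / 18 * q * (p.2 : ℂ).re)) := by
    rw [L', ← hq]
    ring
  rw [e1, e2]
  refine ⟨mul_le_mul_of_nonneg_left hf.1 (abs_nonneg _), ?_⟩
  intro h
  by_cases h0 : (p.1 : ℂ).im = 0
  · exact Or.inl h0
  · have h1 : |(p.1 : ℂ).im| ≠ 0 := abs_ne_zero.2 h0
    have h2 := mul_left_cancel₀ h1 h
    rcases hf.2 h2 with h3 | h3
    · exact Or.inr (Or.inl h3)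
    · exact Or.inr (Or.inr h3.1)

/-- fixed boundary points of the fibre maps -/
lemma sh_fix {c J : ℝ} (hc : 0 < c) (hJ : |J| < 1) {z : ℂ} (h : Un z) (h0 : z.im = 0) :
    sh c J z = z := by
  have hr : z.re ^ 2 = 1 := by
    unfold Un at h
    rw [h0] at h
    linarith
  have hd := den_pos hJ h
  have hb : bo J z = z := by
    apply Complex.ext
    · simp only [bo]
      rw [div_eq_iff hd.ne']
      linear_combination (-J) * hr
    · simp only [bo]
      rw [h0]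
      simp
  have hp : ps c z = z := by
    apply Complex.ext
    · simp only [ps]
      rw [h0, hr]
      simp
    · simp only [ps]
      rw [h0]
      simp
  unfold sh
  rw [hb, hp, hb]

lemma sh_im_zero {c J : ℝ} (hc : 0 < c) (hJ : |J| < 1) {z : ℂ} (h : Un z) :
    (sh c J z).im = 0 ↔ z.im = 0 := by
  constructor
  · intro h0
    have h1 := sh_inv hc hJ h
    rw [sh_fix (inv_pos.2 hc) (by rwa [abs_neg]) (sh_unit hc hJ h) h0] at h1
    rw [h1] at h0
    exact h0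
  · intro h0
    rw [sh_fix hc hJ h h0, h0]

lemma L_f (p : T2) : L (f p) ≤ L p ∧ (L (f p) = L p →
    (p.1 : ℂ).im = 0 ∨ (p.2 : ℂ).im = 0 ∨ ((p.1 : ℂ).re = 0 ∧ (p.2 : ℂ).re = 0)) := by
  have h1 := L_T1 p
  have h2 := L_T2 (T1 p)
  rw [f_apply]
  refine ⟨h2.1.trans h1.1, ?_⟩
  intro h
  have h3 : L' (T1 p) = L p := le_antisymm h1.1 (by rw [← h]; exact h2.1)
  have h4 : L (T2' (T1 p)) = L' (T1 p) := by rw [h, h3]
  rcases h1.2 h3 with h5 | h5 | h5
  · exact Or.inl h5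
  · exact Or.inr (Or.inl h5)
  · rcases h2.2 h4 with h6 | h6 | h6
    · left
      rw [T1_fst] at h6
      exact (sh_im_zero (by norm_num) (par_lt hk1 p.2) (Un_coe p.1)).1 h6
    · exact Or.inr (Or.inl h6)
    · right; right
      rw [T1_snd, h5.2] at h6
      have h7 : (p.2 : ℂ).re = 0 := by linarith
      refine ⟨?_, h7⟩
      rw [h5.1, h7]
      ring

/-- the key inequality on the edges -/
lemma edge_ineq {s n : ℝ} (hs : s ^ 2 < 1) (hn : 0 < n) (hn2 : n ^ 2 = (1 + 3 * s ^ 2) / 4) :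
    613 * |s| * (1 - n) < 612 * (n - s ^ 2) := by
  set u := |s| with hu
  have hu0 : 0 ≤ u := abs_nonneg s
  have hu2 : u ^ 2 = s ^ 2 := sq_abs s
  rw [← hu2] at hs hn2 ⊢
  have hu1 : u < 1 := by nlinarith
  have key : (612 * u ^ 2 + 613 * u) < n * (612 + 613 * u) := by
    apply lt_of_pow_lt_pow_left₀ 2 (by positivity)
    rw [mul_pow, hn2]
    have h1 : (1 + 3 * u ^ 2) / 4 * (612 + 613 * u) ^ 2 - (612 * u ^ 2 + 613 * u) ^ 2
        = (1 - u ^ 2) * ((612 * u + 613) ^ 2 - 1225 * (1 + 3 * u ^ 2)) / 4 := by ring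
    have h2 : 0 < (1 - u ^ 2) * ((612 * u + 613) ^ 2 - 1225 * (1 + 3 * u ^ 2)) / 4 := by
      apply div_pos _ (by norm_num)
      apply mul_pos (by nlinarith)
      nlinarith
    linarith
  nlinarith

lemma edge {z : ℂ} (h : Un z) (h0 : z.im ≠ 0) :
    z.re < (sh (1 / 2) (17 / 18) z).re ∧ (sh (1 / 2) (-(17 / 18)) z).re < z.re := by
  -- common computation
  have main : ∀ J : ℝ, |J| < 1 → ∃ s n d : ℝ, s ^ 2 < 1 ∧ 0 < n ∧ n ^ 2 = (1 + 3 * s ^ 2) / 4 ∧
      0 < d ∧ (sh (1 / 2) J z).re - z.re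
        = ((1 + J ^ 2) * s * (1 - n) + 2 * J * (n - s ^ 2)) / d := by
    intro J hJ
    have hd := den_pos hJ h
    have h2 := one_sub_sq_pos hJ
    set z1 := bo J z with hz1
    have u1 : Un z1 := bo_unit hJ h
    have hz1im : z1.im ≠ 0 := by
      have : z1.im = z.im * √(1 - J ^ 2) / (1 + J * z.re) := rfl
      rw [this]
      have : 0 < √(1 - J ^ 2) := Real.sqrt_pos.2 h2
      exact div_ne_zero (mul_ne_zero h0 this.ne') hd.ne'
    have hs : z1.re ^ 2 < 1 := by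
      have := sq_pos_of_ne_zero hz1im
      unfold Un at u1
      linarith
    have hc : (0 : ℝ) < 1 / 2 := by norm_num
    have hnp := nrm_pos hc u1
    set n := √(z1.re ^ 2 + (1 / 2) ^ 2 * z1.im ^ 2) with hn
    have hn0 : 0 < n := Real.sqrt_pos.2 hnp
    have hn2 : n ^ 2 = z1.re ^ 2 + (1 / 2) ^ 2 * z1.im ^ 2 := Real.sq_sqrt hnp.le
    have hn3 : n ^ 2 = (1 + 3 * z1.re ^ 2) / 4 := by
      unfold Un at u1
      rw [hn2]
      have : z1.im ^ 2 = 1 - z1.re ^ 2 := by linarith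
      rw [this]
      ring
    set z2 := ps (1 / 2) z1 with hz2
    have u2 : Un z2 := ps_unit hc u1
    have hd2 := den_pos hJ u2
    have hz2re : z2.re = z1.re / n := rfl
    have hJ' : |-J| < 1 := by rwa [abs_neg]
    have hd3 := den_pos hJ' u1
    have hzre : z.re = (z1.re + -J) / (1 + -J * z1.re) := by
      have := congrArg Complex.re (bo_inv hJ h)
      rw [← this]
      rfl
    have e3 : (sh (1 / 2) J z).re = (z2.re + J) / (1 + J * z2.re) := rfl
    rw [hz2re] at hd2 e3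
    refine ⟨z1.re, n, n * (1 + J * (z1.re / n)) * (1 + -J * z1.re), hs, hn0, hn3,
      by positivity, ?_⟩
    rw [e3, hzre, div_sub_div _ _ hd2.ne' hd3.ne', div_eq_div_iff (by positivity) (by positivity)]
    have h7 : z1.re / n * n = z1.re := div_mul_cancel₀ _ hn0.ne'
    generalize z1.re / n = v at *
    rw [← h7]
    ring
  constructor
  · obtain ⟨s, n, d, hs, hn, hn2, hd, he⟩ := main (17 / 18) hk2
    have hi := edge_ineq hs hn hn2
    have hn1 : n < 1 := by nlinarith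
    have h3 : 0 < (1 + (17 / 18 : ℝ) ^ 2) * s * (1 - n) + 2 * (17 / 18) * (n - s ^ 2) := by
      have h4 : -|s| * (1 - n) ≤ s * (1 - n) :=
        mul_le_mul_of_nonneg_right (neg_abs_le s) (by linarith)
      nlinarith
    have := div_pos h3 hd
    rw [← he] at this
    linarith
  · obtain ⟨s, n, d, hs, hn, hn2, hd, he⟩ := main (-(17 / 18)) hk1
    have hi := edge_ineq hs hn hn2
    have hn1 : n < 1 := by nlinarith
    have h3 : (1 + (-(17 / 18) : ℝ) ^ 2) * s * (1 - n) + 2 * (-(17 / 18)) * (n - s ^ 2) < 0 := by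
      have h4 : s * (1 - n) ≤ |s| * (1 - n) :=
        mul_le_mul_of_nonneg_right (le_abs_self s) (by linarith)
      nlinarith
    have := div_neg_of_neg_of_pos h3 hd
    rw [← he] at this
    linarith

end Pool.Agent.Q181.RF
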