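import Mathlib

set_option autoImplicit false

namespace Pool.Agent.Q181.RF

open MeasureTheory Filter Topology

/-- The Shannon entropy `-∑ p_j log p_j` of the finite measurable partition
`{x | P x = j}`, `j : ι`. -/
noncomputable def partEntropy {X ι : Type*} [MeasurableSpace X] [Fintype ι] (ρ : Measure X)
    (P : X → ι) : ℝ :=
  ∑ j, Real.negMulLog (ρ.real (P ⁻¹' {j}))

/-- The labelling of the refined partition `P ∨ T⁻¹P ∨ ⋯ ∨ T^{-(n-1)}P`. -/
def itinerary {X ι : Type*} (T : X → X) (P : X → ι) (n : ℕ) (x : X) : Fin n → ι :=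
  fun i => P (T^[i] x)

/-- The Kolmogorov-Sinai entropy: the supremum over the finite measurable partitions `P` of
`lim (1/n) H(P ∨ T⁻¹P ∨ ⋯ ∨ T^{-(n-1)}P)`. -/
noncomputable def ksEntropy {X : Type*} [MeasurableSpace X] (ρ : Measure X) (T : X → X) :
    ENNReal :=
  ⨆ (k : ℕ) (P : X → Fin k) (_ : Measurable P),
    limsup (fun n : ℕ => ENNReal.ofReal (partEntropy ρ (itinerary T P n) / n)) atTop

/-- a map that fixes almost every point has entropy zero -/
theorem ksEntropy_eq_zero {X : Type*} [MeasurableSpace X] (ρ : Measure X)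
    [IsProbabilityMeasure ρ] {T : X → X} (hT : ∀ᵐ x ∂ρ, T x = x) : ksEntropy ρ T = 0 := by
  unfold ksEntropy
  simp only [ENNReal.iSup_eq_zero]
  intro k P hP
  -- bound
  have hb : ∀ n : ℕ, 0 < n → partEntropy ρ (itinerary T P n) ≤ k := by
    intro n hn
    have : NeZero n := ⟨hn.ne'⟩
    unfold partEntropy
    have h1 : ∀ j : Fin n → Fin k,
        ρ.real (itinerary T P n ⁻¹' {j}) = ρ.real ((fun x (_ : Fin n) => P x) ⁻¹' {j}) := by
      intro j
      apply measureReal_congr
      filter_upwards [hT] with x hx
      have h2 : ∀ i : ℕ, T^[i] x = x := fun i => Function.iterate_fixed hx i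
      have h3 : itinerary T P n x = fun _ => P x := by
        funext i
        simp only [itinerary, h2]
      apply propext
      show itinerary T P n x ∈ ({j} : Set _) ↔ (fun _ => P x) ∈ ({j} : Set _)
      rw [h3]
    simp only [h1]
    rw [← Finset.sum_subset (Finset.subset_univ
      (Finset.univ.image (fun (c : Fin k) (_ : Fin n) => c)))]
    · calc _ ≤ ∑ _j ∈ Finset.univ.image (fun (c : Fin k) (_ : Fin n) => c), (1 : ℝ) := by
            apply Finset.sum_le_sum
            intro j _
            have h0 : 0 ≤ ρ.real ((fun x (_ : Fin n) => P x) ⁻¹' {j}) := measureReal_nonneg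
            set t := ρ.real ((fun x (_ : Fin n) => P x) ⁻¹' {j}) with ht
            have := Real.negMulLog_le_one_sub_self h0
            linarith
        _ ≤ k := by
            rw [Finset.sum_const, nsmul_eq_mul, mul_one]
            have := Finset.card_image_le (s := Finset.univ)
              (f := fun (c : Fin k) (_ : Fin n) => c)
            rw [Finset.card_univ, Fintype.card_fin] at this
            exact_mod_cast this
    · intro j _ hj
      have : ((fun x (_ : Fin n) => P x) ⁻¹' {j} : Set X) = ∅ := by
        apply Set.eq_empty_of_forall_notMem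
        intro x hx
        apply hj
        rw [Finset.mem_image]
        exact ⟨P x, Finset.mem_univ _, hx⟩
      rw [this]
      simp
  have hlim : Tendsto (fun n : ℕ => ENNReal.ofReal (partEntropy ρ (itinerary T P n) / n)) atTop
      (𝓝 0) := by
    have h4 : Tendsto (fun n : ℕ => ENNReal.ofReal ((k : ℝ) / n)) atTop (𝓝 0) := by
      have h5 : Tendsto (fun n : ℕ => (k : ℝ) / n) atTop (𝓝 0) :=
        tendsto_const_div_atTop_nhds_zero_nat _
      have := (ENNReal.continuous_ofReal.tendsto 0).comp h5
      rw [ENNReal.ofReal_zero] at this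
      exact this
    apply tendsto_of_tendsto_of_tendsto_of_le_of_le' tendsto_const_nhds h4
    · exact Eventually.of_forall (fun n => zero_le)
    · filter_upwards [eventually_gt_atTop 0] with n hn
      apply ENNReal.ofReal_le_ofReal
      exact div_le_div_of_nonneg_right (hb n hn) (Nat.cast_nonneg _)
  exact hlim.limsup_eq

end Pool.Agent.Q181.RF
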