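import Pool.Agent.Q181.RF.Fix
import Pool.Agent.Q181.RF.Ent

set_option autoImplicit false

namespace Pool.Agent.Q181.RF

open scoped Manifold ContDiff
open Complex Metric Module MeasureTheory

lemma two_eig {A : E2 →L[ℝ] E2} {e₁ e₂ : E2} (h₁ : e₁ ≠ 0) (h₂ : e₂ ≠ 0) {l₁ l₂ : ℝ}
    (hne : l₁ ≠ l₂) (hd₁ : A e₁ = l₁ • e₁) (hd₂ : A e₂ = l₂ • e₂) :
    IsCompl (ℝ ∙ e₁ : Submodule ℝ E2) (ℝ ∙ e₂) := by
  have hdis : Disjoint (ℝ ∙ e₁ : Submodule ℝ E2) (ℝ ∙ e₂) := by
    rw [Submodule.disjoint_def]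
    intro x hx1 hx2
    obtain ⟨a, rfl⟩ := Submodule.mem_span_singleton.1 hx1
    obtain ⟨b, hb⟩ := Submodule.mem_span_singleton.1 hx2
    have h3 : A (a • e₁) = l₁ • (a • e₁) := by rw [map_smul, hd₁, smul_comm]
    have h4 : A (a • e₁) = l₂ • (a • e₁) := by rw [← hb, map_smul, hd₂, smul_comm]
    have h5 : (l₁ - l₂) • (a • e₁) = 0 := by rw [sub_smul, ← h3, ← h4, sub_self]
    exact (smul_eq_zero.1 h5).resolve_left (sub_ne_zero.2 hne)
  have hrk : finrank ℝ E2 = 2 := by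
    rw [Module.finrank_prod, finrank_euclideanSpace_fin]
  refine ⟨hdis, ?_⟩
  rw [codisjoint_iff]
  apply Submodule.eq_top_of_disjoint _ _ _ hdis
  rw [finrank_span_singleton h₁, finrank_span_singleton h₂, hrk]

lemma jz_ne {z : Circle} {u : E1} {c : ℂ} (h : jz z u = c) (hc : c ≠ 0) : u ≠ 0 := by
  rintro rfl
  rw [map_zero] at h
  exact hc h.symm

/-- an eigenbasis at a vertex -/
lemma vtx_basis {p : T2} (hp : Vtx p) : ∃ e₁ e₂ : E2, e₁ ≠ 0 ∧ e₂ ≠ 0 ∧
    der ((𝓡 1).prod (𝓡 1)) f p e₁ = (35 / 2 : ℝ) • e₁ ∧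
    der ((𝓡 1).prod (𝓡 1)) f p e₂ = (1 / 70 : ℝ) • e₂ := by
  have hf := f_Vtx hp
  obtain ⟨hp1, hp2⟩ := hp
  obtain ⟨u, hu⟩ := jz_range p.1 (p.1 : ℂ).re
  obtain ⟨v, hv⟩ := jz_range p.2 (p.2 : ℂ).re
  have u1 := Un_coe p.1
  have u2 := Un_coe p.2
  unfold Un at u1 u2
  rw [hp1] at u1
  rw [hp2] at u2
  have hu' : jz p.1 u = (⟨0, 1⟩ : ℂ) := by
    rw [hu]
    apply Complex.ext
    · simp [hp1]
    · simp only [Complex.mul_im, Complex.mul_re, Complex.ofReal_re, Complex.ofReal_im,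
        Complex.I_re, Complex.I_im]
      linarith
  have hv' : jz p.2 v = (⟨0, 1⟩ : ℂ) := by
    rw [hv]
    apply Complex.ext
    · simp [hp2]
    · simp only [Complex.mul_im, Complex.mul_re, Complex.ofReal_re, Complex.ofReal_im,
        Complex.I_re, Complex.I_im]
      linarith
  have hi : (⟨0, 1⟩ : ℂ) ≠ 0 := by
    intro h
    have := congrArg Complex.im h
    simp at this
  have hune : ((u, 0) : E2) ≠ 0 := by
    intro h
    exact jz_ne hu' hi (Prod.ext_iff.1 h).1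
  have hvne : ((0, v) : E2) ≠ 0 := by
    intro h
    exact jz_ne hv' hi (Prod.ext_iff.1 h).2
  have J1 : Jp p (u, 0) = ((⟨0, 1⟩ : ℂ), (⟨0, 0⟩ : ℂ)) := by
    rw [Jp_apply]
    refine Prod.ext hu' ?_
    show jz p.2 0 = _
    rw [map_zero]; rfl
  have J2 : Jp p (0, v) = ((⟨0, 0⟩ : ℂ), (⟨0, 1⟩ : ℂ)) := by
    rw [Jp_apply]
    refine Prod.ext ?_ hv'
    show jz p.1 0 = _
    rw [map_zero]; rfl
  have D1 := FF_vtx ⟨hp1, hp2⟩ 1 0
  have D2 := FF_vtx ⟨hp1, hp2⟩ 0 1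
  have hs : (p.2 : ℂ).re * (p.1 : ℂ).re = 1 ∨ (p.2 : ℂ).re * (p.1 : ℂ).re = -1 := by
    rcases re_sq_of_im hp1 with h | h <;> rcases re_sq_of_im hp2 with h' | h' <;> rw [h, h'] <;>
      norm_num
  have smk : ∀ (l a b c d : ℝ), l • (((⟨a, b⟩ : ℂ), (⟨c, d⟩ : ℂ)) : ℂ × ℂ)
      = ((⟨l * a, l * b⟩ : ℂ), (⟨l * c, l * d⟩ : ℂ)) := by
    intro l a b c d
    apply Prod.ext
    · apply Complex.ext <;> simp
    · apply Complex.ext <;> simp
  rcases hs with hs | hs
  · refine ⟨(u, 0), (0, v), hune, hvne, eig_of_ambient hf ?_, eig_of_ambient hf ?_⟩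
    · rw [J1, D1, hs, smk]; norm_num
    · rw [J2, D2, hs, smk]; norm_num
  · refine ⟨(0, v), (u, 0), hvne, hune, eig_of_ambient hf ?_, eig_of_ambient hf ?_⟩
    · rw [J2, D2, hs, smk]; norm_num
    · rw [J1, D1, hs, smk]; norm_num

/-- an eigenbasis at a centre -/
lemma cen_basis {p : T2} (hp : Ctr p) : ∃ e₁ e₂ : E2, e₁ ≠ 0 ∧ e₂ ≠ 0 ∧
    der ((𝓡 1).prod (𝓡 1)) f p e₁ = (-(9 / 4) : ℝ) • e₁ ∧
    der ((𝓡 1).prod (𝓡 1)) f p e₂ = (-(16 / 9) : ℝ) • e₂ := by
  have hf := f_Ctr hp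
  obtain ⟨hp1, hp2⟩ := hp
  have r1 : (p.1 : ℂ).im ^ 2 = 1 := im_sq_of_re' (Un_coe p.1) hp1
  have r2 : (p.2 : ℂ).im ^ 2 = 1 := im_sq_of_re' (Un_coe p.2) hp2
  obtain ⟨u, hu⟩ := jz_range p.1 (-(p.1 : ℂ).im)
  obtain ⟨v, hv⟩ := jz_range p.2 (-(p.2 : ℂ).im)
  have hu' : jz p.1 u = (⟨1, 0⟩ : ℂ) := by
    rw [hu]
    apply Complex.ext
    · simp only [Complex.mul_im, Complex.mul_re, Complex.ofReal_re, Complex.ofReal_im,
        Complex.I_re, Complex.I_im]
      linarith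
    · simp [hp1]
  have hv' : jz p.2 v = (⟨1, 0⟩ : ℂ) := by
    rw [hv]
    apply Complex.ext
    · simp only [Complex.mul_im, Complex.mul_re, Complex.ofReal_re, Complex.ofReal_im,
        Complex.I_re, Complex.I_im]
      linarith
    · simp [hp2]
  have hi : ∀ a : ℝ, a ≠ 0 → a • u ≠ 0 := by
    intro a ha h
    have : jz p.1 (a • u) = 0 := by rw [h, map_zero]
    rw [map_smul, hu'] at this
    have h2 := congrArg Complex.re this
    simp at h2
    exact ha h2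
  have smk : ∀ (l a b c d : ℝ), l • (((⟨a, b⟩ : ℂ), (⟨c, d⟩ : ℂ)) : ℂ × ℂ)
      = ((⟨l * a, l * b⟩ : ℂ), (⟨l * c, l * d⟩ : ℂ)) := by
    intro l a b c d
    apply Prod.ext
    · apply Complex.ext <;> simp
    · apply Complex.ext <;> simp
  have J : ∀ a b : ℝ, Jp p (a • u, b • v) = ((⟨a, 0⟩ : ℂ), (⟨b, 0⟩ : ℂ)) := by
    intro a b
    rw [Jp_apply]
    show (jz p.1 (a • u), jz p.2 (b • v)) = _
    rw [map_smul, map_smul, hu', hv']
    apply Prod.ext
    · apply Complex.ext <;> simp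
    · apply Complex.ext <;> simp
  refine ⟨((2 : ℝ) • u, (3 : ℝ) • v), ((3 : ℝ) • u, (4 : ℝ) • v), ?_, ?_,
    eig_of_ambient hf ?_, eig_of_ambient hf ?_⟩
  · intro h
    exact hi 2 (by norm_num) (Prod.ext_iff.1 h).1
  · intro h
    exact hi 3 (by norm_num) (Prod.ext_iff.1 h).1
  · rw [J, FF_cen ⟨hp1, hp2⟩, smk]; norm_num
  · rw [J, FF_cen ⟨hp1, hp2⟩, smk]; norm_num

/-- at a vertex or a centre there is an Oseledets splitting, and any one has positive sum -/
theorem at_fix {p : T2} (hp : Vtx p ∨ Ctr p) (ν : NormField ((𝓡 1).prod (𝓡 1)) T2) :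
    f p = p ∧ Nonempty (OseledetsSplitting f ν p) ∧
      ∀ S : OseledetsSplitting f ν p, 0 < S.posSum := by
  rcases hp with hp | hp
  · obtain ⟨e₁, e₂, h₁, h₂, hd₁, hd₂⟩ := vtx_basis hp
    refine ⟨f_Vtx hp, ?_, ?_⟩
    · apply exists_splitting f ν (f_Vtx hp) h₁ h₂ (by norm_num) (by norm_num) _ hd₁ hd₂
        (two_eig h₁ h₂ (by norm_num) hd₁ hd₂)
      intro h
      have := Real.log_injOn_pos (by rw [Set.mem_Ioi]; positivity)
        (by rw [Set.mem_Ioi]; positivity) h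
      norm_num at this
    · intro S
      exact posSum_pos f ν (f_Vtx hp) h₁ (by norm_num) hd₁ S
  · obtain ⟨e₁, e₂, h₁, h₂, hd₁, hd₂⟩ := cen_basis hp
    refine ⟨f_Ctr hp, ?_, ?_⟩
    · apply exists_splitting f ν (f_Ctr hp) h₁ h₂ (by norm_num) (by norm_num) _ hd₁ hd₂
        (two_eig h₁ h₂ (by norm_num) hd₁ hd₂)
      intro h
      rw [abs_neg, abs_neg] at h
      have := Real.log_injOn_pos (by rw [Set.mem_Ioi]; positivity)
        (by rw [Set.mem_Ioi]; positivity) h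
      norm_num at this
    · intro S
      exact posSum_pos f ν (f_Ctr hp) h₁ (by norm_num) hd₁ S

lemma finite_fix : {p : T2 | Vtx p ∨ Ctr p}.Finite := by
  have h1 : {z : Circle | (z : ℂ).im = 0}.Finite := by
    apply Set.Finite.of_injOn (f := fun z : Circle => (z : ℂ)) (t := {1, -1})
    · intro z hz
      rcases re_sq_of_im hz with h | h
      · left
        exact Complex.ext h hz
      · right
        refine Complex.ext ?_ ?_
        · simpa using h
        · simpa using hz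
    · intro a _ b _ h
      exact Circle.ext h
    · exact Set.toFinite _
  have h2 : {z : Circle | (z : ℂ).re = 0}.Finite := by
    apply Set.Finite.of_injOn (f := fun z : Circle => (z : ℂ)) (t := {I, -I})
    · intro z hz
      rcases im_sq_of_re hz with h | h
      · left
        exact Complex.ext (by simpa using hz) (by simpa using h)
      · right
        refine Complex.ext ?_ ?_
        · simpa using hz
        · simpa using h
    · intro a _ b _ h
      exact Circle.ext h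
    · exact Set.toFinite _
  apply ((h1.prod h1).union (h2.prod h2)).subset
  intro p hp
  rcases hp with hp | hp
  · exact Or.inl ⟨hp.1, hp.2⟩
  · exact Or.inr ⟨hp.1, hp.2⟩

/-- a function is integrable for a finite measure carried by a finite set -/
lemma integrable_of_finite {ρ : Measure T2} [IsProbabilityMeasure ρ] {s : Set T2} (hs : s.Finite)
    (h : ∀ᵐ p ∂ρ, p ∈ s) (g : T2 → ℝ) : Integrable g ρ := by
  have h1 : Integrable (fun p => ∑ q ∈ hs.toFinset, ({q} : Set T2).indicator (fun _ => g q) p) ρ := by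
    apply integrable_finsetSum
    intro q _
    exact (integrable_const _).indicator (measurableSet_singleton q)
  refine h1.congr ?_
  filter_upwards [h] with p hp
  rw [Finset.sum_eq_single p]
  · simp
  · intro q _ hq
    rw [Set.indicator_of_notMem]
    intro h2
    exact hq (Set.mem_singleton_iff.1 h2).symm
  · intro h2
    exact absurd (hs.mem_toFinset.2 hp) h2

end Pool.Agent.Q181.RF
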