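import Mathlib

set_option autoImplicit false

namespace Pool.Agent.Q181.RF

open MeasureTheory Filter Topology Module
open scoped Manifold ContDiff

section defs

variable {E H M : Type*} [NormedAddCommGroup E] [NormedSpace ℝ E] [TopologicalSpace H]
  {I : ModelWithCorners ℝ E H} [TopologicalSpace M] [ChartedSpace H M]

/-- A field of norms on the tangent spaces, for instance the norms of a Riemannian metric. -/
structure NormField (I : ModelWithCorners ℝ E H) (M : Type*) [TopologicalSpace M]
    [ChartedSpace H M] where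
  nrm : ∀ x : M, Seminorm ℝ (TangentSpace I x)
  definite : ∀ (x : M) (v : TangentSpace I x), nrm x v = 0 → v = 0

/-- An Oseledets splitting of the tangent space at `x` for the diffeomorphism `f`. -/
structure OseledetsSplitting (f : M ≃ₘ^ω⟮I, I⟯ M) (ν : NormField I M) (x : M) where
  k : ℕ
  V : Fin k → Submodule ℝ (TangentSpace I x)
  χ : Fin k → ℝ
  distinct : Function.Injective χ
  ne_bot : ∀ i, V i ≠ ⊥
  internal : DirectSum.IsInternal V
  forward : ∀ i, ∀ u ∈ V i, u ≠ 0 →
    Tendsto (fun n : ℕ => Real.log (ν.nrm (f^[n] x) (mfderiv I I (f^[n]) x u)) / n)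
      atTop (𝓝 (χ i))
  backward : ∀ i, ∀ u ∈ V i, u ≠ 0 →
    Tendsto (fun n : ℕ => Real.log (ν.nrm (f.symm^[n] x) (mfderiv I I (f.symm^[n]) x u)) / (-n))
      atTop (𝓝 (χ i))

/-- The sum of the positive exponents, counted with multiplicity. -/
noncomputable def OseledetsSplitting.posSum {f : M ≃ₘ^ω⟮I, I⟯ M} {ν : NormField I M} {x : M}
    (S : OseledetsSplitting f ν x) : ℝ :=
  ∑ i, if 0 < S.χ i then S.χ i * finrank ℝ (S.V i) else 0

/-- `χp` is the function `χ₊` (defined `ρ`-almost everywhere). -/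
def IsChiPlus [MeasurableSpace M] (f : M ≃ₘ^ω⟮I, I⟯ M) (ν : NormField I M) (ρ : Measure M)
    (χp : M → ℝ) : Prop :=
  ∀ᵐ x ∂ρ, ∃ S : OseledetsSplitting f ν x, S.posSum = χp x

end defs

section eig

variable {E H M : Type*} [NormedAddCommGroup E] [NormedSpace ℝ E] [TopologicalSpace H]
  {I : ModelWithCorners ℝ E H} [TopologicalSpace M] [ChartedSpace H M]

/-- the norm on the tangent space of the point `y`, read on the model space -/
noncomputable def NormField.at' (ν : NormField I M) (y : M) (v : E) : ℝ := ν.nrm y v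

lemma at'_of_eq (ν : NormField I M) {y x : M} (h : y = x) (v : E) : ν.at' y v = ν.at' x v := by
  rw [h]

lemma at'_smul (ν : NormField I M) (x : M) (a : ℝ) (v : E) :
    ν.at' x (a • v) = |a| * ν.at' x v :=
  map_smul_eq_mul (ν.nrm x) a v

lemma at'_add (ν : NormField I M) (x : M) (v w : E) :
    ν.at' x (v + w) ≤ ν.at' x v + ν.at' x w :=
  map_add_le_add (ν.nrm x) v w

lemma at'_nonneg (ν : NormField I M) (x : M) (v : E) : 0 ≤ ν.at' x v :=
  apply_nonneg (ν.nrm x) v

lemma at'_zero (ν : NormField I M) (x : M) : ν.at' x 0 = 0 := map_zero (ν.nrm x)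

lemma at'_pos (ν : NormField I M) (x : M) {v : E} (hv : v ≠ 0) : 0 < ν.at' x v :=
  lt_of_le_of_ne (at'_nonneg ν x v) (fun h => hv (ν.definite x v h.symm))

/-- the derivative read on the model space -/
noncomputable def der (I : ModelWithCorners ℝ E H) (g : M → M) (x : M) : E →L[ℝ] E :=
  mfderiv I I g x

lemma der_iterate {g : M → M} (hg : ContMDiff I I ω g) {x : M} (hx : g x = x) {u : E} {l : ℝ}
    (hu : (der I g x) u = l • u) (n : ℕ) : (der I (g^[n]) x) u = l ^ n • u := by
  have hmd : ∀ y, MDifferentiableAt I I g y := fun y => hg.mdifferentiable (by simp) y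
  have hmn : ∀ n y, MDifferentiableAt I I (g^[n]) y := by
    intro n
    induction n with
    | zero => intro y; exact mdifferentiableAt_id
    | succ n ih =>
      intro y
      rw [Function.iterate_succ]
      exact (ih (g y)).comp y (hmd y)
  induction n with
  | zero =>
    unfold der
    rw [Function.iterate_zero, mfderiv_id, pow_zero, one_smul]
    rfl
  | succ n ih =>
    have h1 : der I (g^[n+1]) x = (der I (g^[n]) (g x)).comp (der I g x) := by
      unfold der
      rw [Function.iterate_succ]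
      exact mfderiv_comp x (hmn n (g x)) (hmd x)
    rw [h1, hx, ContinuousLinearMap.comp_apply, hu, map_smul, ih, smul_smul, pow_succ]
    congr 1
    ring

lemma symm_fix (f : M ≃ₘ^ω⟮I, I⟯ M) {x : M} (hx : f x = x) : f.symm x = x := by
  have := f.symm_apply_apply x
  rwa [hx] at this

lemma der_symm (f : M ≃ₘ^ω⟮I, I⟯ M) {x : M} (hx : f x = x) {u : E} {l : ℝ} (hl : l ≠ 0)
    (hu : (der I f x) u = l • u) : (der I f.symm x) u = l⁻¹ • u := by
  have h1 : der I (f.symm ∘ f) x = (der I f.symm (f x)).comp (der I f x) := by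
    unfold der
    exact mfderiv_comp x (f.symm.contMDiff.mdifferentiable (by simp) _)
      (f.contMDiff.mdifferentiable (by simp) _)
  have h2 : (f.symm ∘ f : M → M) = id := by
    funext y
    exact f.symm_apply_apply y
  have h3 : der I (f.symm ∘ f) x u = u := by
    rw [h2]
    unfold der
    rw [mfderiv_id]
    rfl
  rw [h1, hx, ContinuousLinearMap.comp_apply, hu, map_smul] at h3
  rw [← h3, smul_smul, inv_mul_cancel₀ hl, one_smul, h3]

lemma log_lim {l c : ℝ} (hl : l ≠ 0) (hc : 0 < c) :
    Tendsto (fun n : ℕ => Real.log (|l ^ n| * c) / n) atTop (𝓝 (Real.log |l|)) := by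
  have h1 : Tendsto (fun n : ℕ => Real.log |l| + Real.log c / n) atTop (𝓝 (Real.log |l| + 0)) :=
    tendsto_const_nhds.add (tendsto_const_div_atTop_nhds_zero_nat _)
  rw [add_zero] at h1
  apply h1.congr'
  filter_upwards [eventually_gt_atTop 0] with n hn
  have hn' : (n : ℝ) ≠ 0 := by exact_mod_cast hn.ne'
  have hl' : |l| ≠ 0 := abs_ne_zero.2 hl
  rw [abs_pow, Real.log_mul (pow_ne_zero _ hl') hc.ne', Real.log_pow]
  field_simp

/-- growth along an eigenvector -/
lemma fwd_eig (f : M ≃ₘ^ω⟮I, I⟯ M) (ν : NormField I M) {x : M} (hx : f x = x) {u : E}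
    (hu0 : u ≠ 0) {l : ℝ} (hl : l ≠ 0) (hu : (der I f x) u = l • u) :
    Tendsto (fun n : ℕ => Real.log (ν.nrm (f^[n] x) (mfderiv I I (f^[n]) x u)) / n)
      atTop (𝓝 (Real.log |l|)) := by
  apply (log_lim hl (at'_pos ν x hu0)).congr
  intro n
  have h1 : ν.nrm (f^[n] x) (mfderiv I I (f^[n]) x u) = ν.at' (f^[n] x) (der I (f^[n]) x u) := rfl
  rw [h1, at'_of_eq ν (Function.iterate_fixed hx n), der_iterate f.contMDiff hx hu n, at'_smul]

lemma bwd_eig (f : M ≃ₘ^ω⟮I, I⟯ M) (ν : NormField I M) {x : M} (hx : f x = x) {u : E}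
    (hu0 : u ≠ 0) {l : ℝ} (hl : l ≠ 0) (hu : (der I f x) u = l • u) :
    Tendsto (fun n : ℕ => Real.log (ν.nrm (f.symm^[n] x) (mfderiv I I (f.symm^[n]) x u)) / (-n))
      atTop (𝓝 (Real.log |l|)) := by
  have h0 := fwd_eig f.symm ν (symm_fix f hx) hu0 (inv_ne_zero hl) (der_symm f hx hl hu)
  rw [abs_inv, Real.log_inv] at h0
  have h1 := h0.neg
  rw [neg_neg] at h1
  apply h1.congr
  intro n
  rw [div_neg]

/-- a fixed point with an eigenbasis has an Oseledets splitting -/
theorem exists_splitting (f : M ≃ₘ^ω⟮I, I⟯ M) (ν : NormField I M) {x : M} (hx : f x = x)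
    {e₁ e₂ : E} (h₁ : e₁ ≠ 0) (h₂ : e₂ ≠ 0) {l₁ l₂ : ℝ} (hl₁ : l₁ ≠ 0) (hl₂ : l₂ ≠ 0)
    (hne : Real.log |l₁| ≠ Real.log |l₂|) (hd₁ : (der I f x) e₁ = l₁ • e₁)
    (hd₂ : (der I f x) e₂ = l₂ • e₂) (hc : IsCompl (ℝ ∙ e₁) (ℝ ∙ e₂)) :
    Nonempty (OseledetsSplitting f ν x) := by
  have key : ∀ (e : E) (l : ℝ), l ≠ 0 → (der I f x) e = l • e → ∀ u ∈ (ℝ ∙ e), u ≠ 0 →
      (der I f x) u = l • u := by
    intro e l _ he u hu _
    obtain ⟨a, rfl⟩ := Submodule.mem_span_singleton.1 hu
    rw [map_smul, he, smul_comm]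
  refine ⟨⟨2, ![(ℝ ∙ e₁ : Submodule ℝ E), (ℝ ∙ e₂ : Submodule ℝ E)],
    ![Real.log |l₁|, Real.log |l₂|], ?_, ?_, ?_, ?_, ?_⟩⟩
  · intro i j hij
    fin_cases i <;> fin_cases j
    · rfl
    · exact absurd hij hne
    · exact absurd hij hne.symm
    · rfl
  · intro i
    fin_cases i
    · exact (Submodule.span_singleton_eq_bot (R := ℝ) (x := e₁)).not.2 h₁
    · exact (Submodule.span_singleton_eq_bot (R := ℝ) (x := e₂)).not.2 h₂
  · rw [DirectSum.isInternal_submodule_iff_isCompl (i := (0 : Fin 2)) (j := 1) _ (by decide)]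
    · exact hc
    · ext i
      fin_cases i <;> simp
  · intro i u hu hu0
    fin_cases i
    · exact fwd_eig f ν hx hu0 hl₁ (key e₁ l₁ hl₁ hd₁ u hu hu0)
    · exact fwd_eig f ν hx hu0 hl₂ (key e₂ l₂ hl₂ hd₂ u hu hu0)
  · intro i u hu hu0
    fin_cases i
    · exact bwd_eig f ν hx hu0 hl₁ (key e₁ l₁ hl₁ hd₁ u hu hu0)
    · exact bwd_eig f ν hx hu0 hl₂ (key e₂ l₂ hl₂ hd₂ u hu hu0)

/-- at a fixed point with an expanded eigenvector, every Oseledets splitting has a positive
exponent -/
theorem posSum_pos [FiniteDimensional ℝ E] (f : M ≃ₘ^ω⟮I, I⟯ M) (ν : NormField I M) {x : M}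
    (hx : f x = x) {e : E} (h : e ≠ 0) {l : ℝ} (hl : 1 < |l|) (hd : (der I f x) e = l • e)
    (S : OseledetsSplitting f ν x) : 0 < S.posSum := by
  have : FiniteDimensional ℝ (TangentSpace I x) := inferInstanceAs (FiniteDimensional ℝ E)
  -- some exponent is positive
  have hex : ∃ i, 0 < S.χ i := by
    by_contra hcon
    push Not at hcon
    let mot : TangentSpace I x → Prop := fun u => ∀ ε : ℝ, 0 < ε →
      ∀ᶠ n : ℕ in atTop, ν.at' x (der I (f^[n]) x u) ≤ Real.exp (ε * n)
    have hfx : ∀ n : ℕ, f^[n] x = x := fun n => Function.iterate_fixed hx n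
    have h1 : ∀ v : TangentSpace I x, mot v := by
      intro v
      have htop : v ∈ (⨆ i, S.V i : Submodule ℝ (TangentSpace I x)) := by
        rw [S.internal.submodule_iSup_eq_top]
        exact Submodule.mem_top
      refine Submodule.iSup_induction S.V (motive := mot) htop ?_ ?_ ?_
      · intro i u hu ε hε
        by_cases hu0 : u = 0
        · apply Eventually.of_forall
          intro n
          rw [hu0]
          have : der I (f^[n]) x (0 : E) = 0 := map_zero _
          have h2 : ν.at' x (der I (f^[n]) x (0 : E)) = 0 := by rw [this, at'_zero]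
          exact h2.le.trans (Real.exp_pos _).le
        · have h2 := S.forward i u hu hu0
          have h3 := h2.eventually (gt_mem_nhds (lt_of_le_of_lt (hcon i) hε))
          filter_upwards [h3, eventually_gt_atTop 0] with n hn hn0
          have hn' : (0 : ℝ) < n := by exact_mod_cast hn0
          rw [div_lt_iff₀ hn'] at hn
          have h4 : ν.nrm (f^[n] x) (mfderiv I I (f^[n]) x u)
              = ν.at' x (der I (f^[n]) x u) := at'_of_eq ν (hfx n) _
          rw [h4] at hn
          rcases (at'_nonneg ν x (der I (f^[n]) x u)).eq_or_lt with h5 | h5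
          · rw [← h5]; exact (Real.exp_pos _).le
          · exact ((Real.log_lt_iff_lt_exp h5).1 hn).le
      · intro ε _
        apply Eventually.of_forall
        intro n
        have : der I (f^[n]) x (0 : E) = 0 := map_zero _
        have h2 : ν.at' x (der I (f^[n]) x (0 : E)) = 0 := by rw [this, at'_zero]
        exact h2.le.trans (Real.exp_pos _).le
      · intro u w hu hw ε hε
        have hlim : Tendsto (fun n : ℕ => ε / 2 * (n : ℝ)) atTop atTop :=
          tendsto_natCast_atTop_atTop.const_mul_atTop (half_pos hε)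
        filter_upwards [hu (ε / 2) (half_pos hε), hw (ε / 2) (half_pos hε),
          hlim.eventually_ge_atTop (Real.log 2)] with n h2 h3 h4
        have h5 : der I (f^[n]) x (u + w : E)
            = der I (f^[n]) x u + der I (f^[n]) x w := map_add _ _ _
        have h6 : ν.at' x (der I (f^[n]) x (u + w : E)) ≤
            ν.at' x (der I (f^[n]) x u) + ν.at' x (der I (f^[n]) x w) := by
          rw [h5]; exact at'_add ν x _ _
        have h7 : (2 : ℝ) ≤ Real.exp (ε / 2 * n) := by
          rw [← Real.log_le_iff_le_exp (by norm_num)]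
          exact h4
        have h8 : Real.exp (ε * n) = Real.exp (ε / 2 * n) * Real.exp (ε / 2 * n) := by
          rw [← Real.exp_add]; congr 1; ring
        refine h6.trans ?_
        rw [h8]
        nlinarith [Real.exp_pos (ε / 2 * n)]
    have hpos : 0 < Real.log |l| := Real.log_pos hl
    have h2 := h1 e (Real.log |l| / 2) (half_pos hpos)
    have hlim : Tendsto (fun n : ℕ => Real.exp (-(Real.log |l| / 2 * n))) atTop (𝓝 0) := by
      apply Real.tendsto_exp_neg_atTop_nhds_zero.comp
      exact tendsto_natCast_atTop_atTop.const_mul_atTop (half_pos hpos)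
    have h3 := hlim.eventually (gt_mem_nhds (at'_pos ν x h))
    obtain ⟨n, hn1, hn2⟩ := (h2.and h3).exists
    rw [der_iterate f.contMDiff hx hd n, at'_smul] at hn1
    have h4 : |l ^ n| = Real.exp (Real.log |l| / 2 * n) * Real.exp (Real.log |l| / 2 * n) := by
      rw [abs_pow, ← Real.exp_add]
      have : Real.log |l| / 2 * n + Real.log |l| / 2 * n = n * Real.log |l| := by ring
      rw [this, Real.exp_nat_mul, Real.exp_log (by linarith)]
    rw [h4, mul_assoc] at hn1
    have hp := Real.exp_pos (Real.log |l| / 2 * n)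
    have h5 : Real.exp (Real.log |l| / 2 * n) * ν.at' x e ≤ 1 := by
      by_contra hc
      push Not at hc
      nlinarith
    rw [Real.exp_neg] at hn2
    have h6 : 1 < Real.exp (Real.log |l| / 2 * n) * ν.at' x e := by
      have := mul_lt_mul_of_pos_left hn2 hp
      rwa [mul_inv_cancel₀ hp.ne'] at this
    linarith
  obtain ⟨i, hi⟩ := hex
  unfold OseledetsSplitting.posSum
  have hrk : 0 < finrank ℝ (S.V i) := by
    rw [Module.finrank_pos_iff]
    exact (Submodule.nontrivial_iff_ne_bot).2 (S.ne_bot i)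
  apply Finset.sum_pos'
  · intro j _
    split_ifs with hj
    · positivity
    · exact le_rfl
  · refine ⟨i, Finset.mem_univ _, ?_⟩
    rw [if_pos hi]
    have : (0 : ℝ) < finrank ℝ (S.V i) := by exact_mod_cast hrk
    positivity

end eig

end Pool.Agent.Q181.RF
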