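import Pool.Agent.Q181.RF.Deriv
import Pool.Agent.Q181.RF.Osel

set_option autoImplicit false

namespace Pool.Agent.Q181.RF

open scoped Manifold ContDiff
open Complex Metric Module

attribute [local instance] finrank_real_complex_fact'

abbrev E1 := EuclideanSpace ℝ (Fin 1)
abbrev E2 := E1 × E1

/-- derivative of the inclusion of the circle in the plane -/
noncomputable def jz (z : Circle) : E1 →L[ℝ] ℂ :=
  mfderiv (𝓡 1) 𝓘(ℝ, ℂ) (fun z : Circle => (z : ℂ)) z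

set_option linter.deprecated false in
lemma jz_inj (z : Circle) : Function.Injective (jz z) :=
  mfderiv_coe_sphere_injective (E := ℂ) (n := 1) z

set_option linter.deprecated false in
lemma jz_range (z : Circle) (a : ℝ) : ∃ u : E1, jz z u = (a : ℂ) * (I * z) := by
  have h := range_mfderiv_coe_sphere (E := ℂ) (n := 1) z
  have h2 : (a : ℂ) * (I * z) ∈ (ℝ ∙ (z : ℂ))ᗮ := by
    rw [Submodule.mem_orthogonal_singleton_iff_inner_right]
    rw [Complex.inner]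
    simp
    ring
  rw [← h] at h2
  obtain ⟨u, hu⟩ := h2
  exact ⟨u, hu⟩

/-- the inclusion of the torus -/
def io (p : T2) : ℂ × ℂ := ((p.1 : ℂ), (p.2 : ℂ))

lemma hasMFDerivAt_coe (z : Circle) :
    HasMFDerivAt (𝓡 1) 𝓘(ℝ, ℂ) (fun z : Circle => (z : ℂ)) z (jz z) := by
  have hcoe : ContMDiff (𝓡 1) 𝓘(ℝ, ℂ) ω (fun z : Circle => (z : ℂ)) := contMDiff_coe_sphere
  exact (hcoe.mdifferentiable (by simp) z).hasMFDerivAt

/-- derivative of the inclusion of the torus -/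
noncomputable def Jp (p : T2) : E2 →L[ℝ] ℂ × ℂ :=
  ((jz p.1).comp (ContinuousLinearMap.fst ℝ E1 E1)).prod
        ((jz p.2).comp (ContinuousLinearMap.snd ℝ E1 E1))

lemma Jp_apply (p : T2) (e : E2) : Jp p e = (jz p.1 e.1, jz p.2 e.2) := rfl

lemma hasMFDerivAt_io (p : T2) :
    HasMFDerivAt ((𝓡 1).prod (𝓡 1)) 𝓘(ℝ, ℂ × ℂ) io p (Jp p) := by
  have h1 : HasMFDerivAt ((𝓡 1).prod (𝓡 1)) 𝓘(ℝ, ℂ) (fun p : T2 => (p.1 : ℂ)) p
      ((jz p.1).comp (ContinuousLinearMap.fst ℝ E1 E1)) :=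
    (hasMFDerivAt_coe p.1).comp p (hasMFDerivAt_fst p)
  have h2 : HasMFDerivAt ((𝓡 1).prod (𝓡 1)) 𝓘(ℝ, ℂ) (fun p : T2 => (p.2 : ℂ)) p
      ((jz p.2).comp (ContinuousLinearMap.snd ℝ E1 E1)) :=
    (hasMFDerivAt_coe p.2).comp p (hasMFDerivAt_snd p)
  exact ⟨h1.1.prodMk h2.1, h1.2.prodMk h2.2⟩

/-- the map of the plane extending `f` -/
noncomputable def FF (q : ℂ × ℂ) : ℂ × ℂ :=
  (sh (1 / 2) (-(17 / 18) * q.2.re) q.1,
    sh (1 / 2) (17 / 18 * (sh (1 / 2) (-(17 / 18) * q.2.re) q.1).re) q.2)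

lemma io_f (p : T2) : io (f p) = FF (io p) := rfl

lemma FF_diff (p : T2) : DifferentiableAt ℝ FF (io p) := by
  have hc : (0 : ℝ) < 1 / 2 := by norm_num
  have h1 : ContDiffAt ℝ ω (fun q : ℂ × ℂ => sh (1 / 2) (-(17 / 18) * q.2.re) q.1) (io p) := by
    apply sh_contDiffAt hc
    · exact contDiffAt_const.mul (contDiff_re.contDiffAt.comp _ contDiffAt_snd)
    · exact contDiffAt_fst
    · exact par_lt hk1 p.2
    · exact Un_coe p.1
  have h2 : ContDiffAt ℝ ω (fun q : ℂ × ℂ =>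
      sh (1 / 2) (17 / 18 * (sh (1 / 2) (-(17 / 18) * q.2.re) q.1).re) q.2) (io p) := by
    apply sh_contDiffAt hc
    · exact contDiffAt_const.mul (contDiff_re.contDiffAt.comp _ h1)
    · exact contDiffAt_snd
    · exact par_lt hk2 (T1 p).1
    · exact Un_coe p.2
  exact (h1.prodMk h2).differentiableAt (by simp)

/-- the relation between the intrinsic and the ambient derivative at a fixed point -/
lemma der_rel {p : T2} (hp : f p = p) (e : E2) :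
    Jp p (der ((𝓡 1).prod (𝓡 1)) f p e) = fderiv ℝ FF (io p) (Jp p e) := by
  have h1 : HasMFDerivAt ((𝓡 1).prod (𝓡 1)) 𝓘(ℝ, ℂ × ℂ) (FF ∘ io) p
      ((fderiv ℝ FF (io p)).comp (Jp p)) :=
    ((FF_diff p).hasFDerivAt.hasMFDerivAt).comp p (hasMFDerivAt_io p)
  have h2 : HasMFDerivAt ((𝓡 1).prod (𝓡 1)) ((𝓡 1).prod (𝓡 1)) f p (der ((𝓡 1).prod (𝓡 1)) f p) :=
    (f.contMDiff.mdifferentiable (by simp) p).hasMFDerivAt
  have h3 : HasMFDerivAt ((𝓡 1).prod (𝓡 1)) 𝓘(ℝ, ℂ × ℂ) (io ∘ f) p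
      ((Jp (f p)).comp (der ((𝓡 1).prod (𝓡 1)) f p)) :=
    (hasMFDerivAt_io (f p)).comp p h2
  have h4 : (io ∘ f : T2 → ℂ × ℂ) = FF ∘ io := rfl
  rw [h4] at h3
  have h5 : (Jp (f p)).comp (der ((𝓡 1).prod (𝓡 1)) f p) = (fderiv ℝ FF (io p)).comp (Jp p) :=
    hasMFDerivAt_unique h3 h1
  rw [hp] at h5
  exact congrArg (fun (L : E2 →L[ℝ] ℂ × ℂ) => L e) h5

lemma Jp_inj (p : T2) : Function.Injective (Jp p) := by
  intro a b h
  rw [Jp_apply, Jp_apply] at h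
  exact Prod.ext (jz_inj p.1 (Prod.ext_iff.1 h).1) (jz_inj p.2 (Prod.ext_iff.1 h).2)

/-- an ambient eigenvector gives an eigenvector -/
lemma eig_of_ambient {p : T2} (hp : f p = p) {e : E2} {l : ℝ}
    (h : fderiv ℝ FF (io p) (Jp p e) = l • Jp p e) :
    der ((𝓡 1).prod (𝓡 1)) f p e = l • e := by
  apply Jp_inj p
  rw [der_rel hp, h, map_smul]

/-- computing the ambient derivative along a line -/
lemma fderiv_FF {p : T2} {v w : ℂ × ℂ}
    (h1 : HasDerivAt (fun t : ℝ => (FF (io p + t • v)).1.re) w.1.re 0)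
    (h2 : HasDerivAt (fun t : ℝ => (FF (io p + t • v)).1.im) w.1.im 0)
    (h3 : HasDerivAt (fun t : ℝ => (FF (io p + t • v)).2.re) w.2.re 0)
    (h4 : HasDerivAt (fun t : ℝ => (FF (io p + t • v)).2.im) w.2.im 0) :
    fderiv ℝ FF (io p) v = w := by
  have hl : HasDerivAt (fun t : ℝ => io p + t • v) v 0 := by
    have := ((hasDerivAt_id (0 : ℝ)).smul_const v).const_add (io p)
    simpa using this
  have h0 : (fun t : ℝ => io p + t • v) 0 = io p := by simp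
  have hF : HasFDerivAt FF (fderiv ℝ FF (io p)) ((fun t : ℝ => io p + t • v) 0) := by
    rw [h0]; exact (FF_diff p).hasFDerivAt
  have hc : HasDerivAt (FF ∘ (fun t : ℝ => io p + t • v)) (fderiv ℝ FF (io p) v) 0 :=
    hF.comp_hasDerivAt 0 hl
  have c1 : HasDerivAt (fun t : ℝ => (FF (io p + t • v)).1.re) (fderiv ℝ FF (io p) v).1.re 0 :=
    ((Complex.reCLM.comp (ContinuousLinearMap.fst ℝ ℂ ℂ)).hasFDerivAt).comp_hasDerivAt 0 hc
  have c2 : HasDerivAt (fun t : ℝ => (FF (io p + t • v)).1.im) (fderiv ℝ FF (io p) v).1.im 0 :=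
    ((Complex.imCLM.comp (ContinuousLinearMap.fst ℝ ℂ ℂ)).hasFDerivAt).comp_hasDerivAt 0 hc
  have c3 : HasDerivAt (fun t : ℝ => (FF (io p + t • v)).2.re) (fderiv ℝ FF (io p) v).2.re 0 :=
    ((Complex.reCLM.comp (ContinuousLinearMap.snd ℝ ℂ ℂ)).hasFDerivAt).comp_hasDerivAt 0 hc
  have c4 : HasDerivAt (fun t : ℝ => (FF (io p + t • v)).2.im) (fderiv ℝ FF (io p) v).2.im 0 :=
    ((Complex.imCLM.comp (ContinuousLinearMap.snd ℝ ℂ ℂ)).hasFDerivAt).comp_hasDerivAt 0 hc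
  apply Prod.ext
  · exact Complex.ext (c1.unique h1) (c2.unique h2)
  · exact Complex.ext (c3.unique h3) (c4.unique h4)

/-- real affine functions -/
lemma aff (a b : ℝ) : HasDerivAt (fun t : ℝ => a + t * b) b 0 := by
  have := ((hasDerivAt_id (0 : ℝ)).mul_const b).const_add a
  simpa using this

/-- the ambient derivative at a vertex -/
lemma FF_vtx {p : T2} (hp : Vtx p) (a b : ℝ) :
    fderiv ℝ FF (io p) ((⟨0, a⟩ : ℂ), (⟨0, b⟩ : ℂ)) =
      ((⟨0, 1 / 2 * ((1 - -(17 / 18) * ((p.2 : ℂ).re * (p.1 : ℂ).re)) /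
          (1 + -(17 / 18) * ((p.2 : ℂ).re * (p.1 : ℂ).re))) * a⟩ : ℂ),
       (⟨0, 1 / 2 * ((1 - (17 / 18) * ((p.2 : ℂ).re * (p.1 : ℂ).re)) /
          (1 + (17 / 18) * ((p.2 : ℂ).re * (p.1 : ℂ).re))) * b⟩ : ℂ)) := by
  obtain ⟨hp1, hp2⟩ := hp
  have u1 := Un_coe p.1
  have u2 := Un_coe p.2
  unfold Un at u1 u2
  rw [hp1] at u1
  rw [hp2] at u2
  have r1 : (p.1 : ℂ).re ^ 2 = 1 := by linarith
  have r2 : (p.2 : ℂ).re ^ 2 = 1 := by linarith
  -- first curve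
  set z : ℝ → ℂ := fun t => (io p + t • (((⟨0, a⟩ : ℂ), (⟨0, b⟩ : ℂ)) : ℂ × ℂ)).1 with hz
  set w : ℝ → ℂ := fun t => (io p + t • (((⟨0, a⟩ : ℂ), (⟨0, b⟩ : ℂ)) : ℂ × ℂ)).2 with hw
  have zre : (fun t => (z t).re) = fun t => (p.1 : ℂ).re + t * 0 := by
    funext t; simp [hz, io]
  have zim : (fun t => (z t).im) = fun t => (p.1 : ℂ).im + t * a := by
    funext t; simp [hz, io]
  have wre : (fun t => (w t).re) = fun t => (p.2 : ℂ).re + t * 0 := by
    funext t; simp [hw, io]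
  have wim : (fun t => (w t).im) = fun t => (p.2 : ℂ).im + t * b := by
    funext t; simp [hw, io]
  have z0 : z 0 = p.1 := by simp [hz, io]
  have w0 : w 0 = p.2 := by simp [hw, io]
  have dz1 : HasDerivAt (fun t => (z t).re) 0 0 := by rw [zre]; exact aff _ _
  have dz2 : HasDerivAt (fun t => (z t).im) a 0 := by rw [zim]; exact aff _ _
  have dw1 : HasDerivAt (fun t => (w t).re) 0 0 := by rw [wre]; exact aff _ _
  have dw2 : HasDerivAt (fun t => (w t).im) b 0 := by rw [wim]; exact aff _ _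
  have hK1 : HasDerivAt (fun t => -(17 / 18) * (w t).re) 0 0 := by
    have := dw1.const_mul (-(17 / 18) : ℝ)
    rwa [mul_zero] at this
  obtain ⟨s1, s2⟩ := sh_vtx (z := z) hK1 dz1 dz2 (by rw [w0]; exact par_lt hk1 p.2)
    (by rw [z0]; exact r1) (by rw [z0]; exact hp1)
  set z' : ℝ → ℂ := fun t => sh (1 / 2) (-(17 / 18) * (w t).re) (z t) with hz'
  have z'0 : z' 0 = p.1 := by
    show sh (1 / 2) (-(17 / 18) * (w 0).re) (z 0) = p.1
    rw [w0, z0]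
    exact sh_fix (by norm_num) (par_lt hk1 p.2) (Un_coe p.1) hp1
  have hK2 : HasDerivAt (fun t => 17 / 18 * (z' t).re) 0 0 := by
    have := s1.const_mul (17 / 18 : ℝ)
    rwa [mul_zero] at this
  obtain ⟨s3, s4⟩ := sh_vtx (z := w) hK2 dw1 dw2 (by rw [z'0]; exact par_lt hk2 p.1)
    (by rw [w0]; exact r2) (by rw [w0]; exact hp2)
  apply fderiv_FF
  · exact s1
  · refine s2.congr_deriv ?_
    rw [w0, z0]
    simp only [mul_assoc]
  · exact s3
  · refine s4.congr_deriv ?_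
    rw [w0, z'0]
    simp only [mul_assoc, mul_comm (p.1 : ℂ).re (p.2 : ℂ).re]

/-- the ambient derivative at a centre -/
lemma FF_cen {p : T2} (hp : Ctr p) (a b : ℝ) :
    fderiv ℝ FF (io p) ((⟨a, 0⟩ : ℂ), (⟨b, 0⟩ : ℂ)) =
      ((⟨2 * a - 17 / 6 * b, 0⟩ : ℂ), (⟨17 / 3 * a - 217 / 36 * b, 0⟩ : ℂ)) := by
  obtain ⟨hp1, hp2⟩ := hp
  have r1 : (p.1 : ℂ).im ^ 2 = 1 := im_sq_of_re' (Un_coe p.1) hp1
  have r2 : (p.2 : ℂ).im ^ 2 = 1 := im_sq_of_re' (Un_coe p.2) hp2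
  set z : ℝ → ℂ := fun t => (io p + t • (((⟨a, 0⟩ : ℂ), (⟨b, 0⟩ : ℂ)) : ℂ × ℂ)).1 with hz
  set w : ℝ → ℂ := fun t => (io p + t • (((⟨a, 0⟩ : ℂ), (⟨b, 0⟩ : ℂ)) : ℂ × ℂ)).2 with hw
  have zre : (fun t => (z t).re) = fun t => (p.1 : ℂ).re + t * a := by
    funext t; simp [hz, io]
  have zim : (fun t => (z t).im) = fun t => (p.1 : ℂ).im + t * 0 := by
    funext t; simp [hz, io]
  have wre : (fun t => (w t).re) = fun t => (p.2 : ℂ).re + t * b := by
    funext t; simp [hw, io]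
  have wim : (fun t => (w t).im) = fun t => (p.2 : ℂ).im + t * 0 := by
    funext t; simp [hw, io]
  have z0 : z 0 = p.1 := by simp [hz, io]
  have w0 : w 0 = p.2 := by simp [hw, io]
  have dz1 : HasDerivAt (fun t => (z t).re) a 0 := by rw [zre]; exact aff _ _
  have dz2 : HasDerivAt (fun t => (z t).im) 0 0 := by rw [zim]; exact aff _ _
  have dw1 : HasDerivAt (fun t => (w t).re) b 0 := by rw [wre]; exact aff _ _
  have dw2 : HasDerivAt (fun t => (w t).im) 0 0 := by rw [wim]; exact aff _ _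
  have hK1 : HasDerivAt (fun t => -(17 / 18) * (w t).re) (-(17 / 18) * b) 0 :=
    dw1.const_mul (-(17 / 18) : ℝ)
  obtain ⟨s1, s2⟩ := sh_cen (z := z) hK1 dz1 dz2 (by rw [w0, hp2, mul_zero])
    (by rw [z0]; exact hp1) (by rw [z0]; exact r1)
  set z' : ℝ → ℂ := fun t => sh (1 / 2) (-(17 / 18) * (w t).re) (z t) with hz'
  have z'0 : z' 0 = p.1 := by
    show sh (1 / 2) (-(17 / 18) * (w 0).re) (z 0) = p.1
    rw [w0, z0, hp2, mul_zero]
    exact sh_ctr (Un_coe p.1) hp1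
  have hK2 : HasDerivAt (fun t => 17 / 18 * (z' t).re)
      (17 / 18 * (2 * a + 3 * (-(17 / 18) * b))) 0 :=
    s1.const_mul (17 / 18 : ℝ)
  obtain ⟨s3, s4⟩ := sh_cen (z := w) hK2 dw1 dw2 (by rw [z'0, hp1, mul_zero])
    (by rw [w0]; exact hp2) (by rw [w0]; exact r2)
  apply fderiv_FF
  · refine s1.congr_deriv ?_
    show 2 * a + 3 * (-(17 / 18) * b) = 2 * a - 17 / 6 * b
    ring
  · exact s2
  · refine s3.congr_deriv ?_
    show 2 * b + 3 * (17 / 18 * (2 * a + 3 * (-(17 / 18) * b))) = 17 / 3 * a - 217 / 36 * b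
    ring
  · exact s4

end Pool.Agent.Q181.RF
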