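import Mathlib

set_option autoImplicit false

namespace Pool.Agent.Q181.RF

open Real

/-- hyperbolic boost acting on the unit circle -/
noncomputable def bo (K : ℝ) (z : ℂ) : ℂ :=
  ⟨(z.re + K) / (1 + K * z.re), z.im * √(1 - K ^ 2) / (1 + K * z.re)⟩

/-- normalised linear map `re + i c im` -/
noncomputable def ps (c : ℝ) (z : ℂ) : ℂ :=
  ⟨z.re / √(z.re ^ 2 + c ^ 2 * z.im ^ 2), c * z.im / √(z.re ^ 2 + c ^ 2 * z.im ^ 2)⟩

/-- the fibre map -/
noncomputable def sh (c K : ℝ) (z : ℂ) : ℂ := bo K (ps c (bo K z))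

/-- on the unit circle -/
def Un (z : ℂ) : Prop := z.re ^ 2 + z.im ^ 2 = 1

lemma Un.re_le {z : ℂ} (h : Un z) : |z.re| ≤ 1 := by
  rw [abs_le]
  unfold Un at h
  constructor <;> nlinarith [sq_nonneg z.im]

lemma Un.im_le {z : ℂ} (h : Un z) : |z.im| ≤ 1 := by
  rw [abs_le]
  unfold Un at h
  constructor <;> nlinarith [sq_nonneg z.re]

lemma den_pos {K : ℝ} (hK : |K| < 1) {z : ℂ} (h : Un z) : 0 < 1 + K * z.re := by
  have h1 := h.re_le
  have h2 : |K * z.re| < 1 := by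
    rw [abs_mul]
    nlinarith [abs_nonneg K, abs_nonneg z.re]
  have := (abs_lt.1 h2).1
  linarith

lemma one_sub_sq_pos {K : ℝ} (hK : |K| < 1) : 0 < 1 - K ^ 2 := by
  have := (sq_lt_one_iff_abs_lt_one K).2 hK
  linarith

lemma bo_unit {K : ℝ} (hK : |K| < 1) {z : ℂ} (h : Un z) : Un (bo K z) := by
  have h1 := den_pos hK h
  have h2 := one_sub_sq_pos hK
  have h3 : √(1 - K ^ 2) ^ 2 = 1 - K ^ 2 := Real.sq_sqrt h2.le
  unfold Un at *
  simp only [bo]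
  rw [div_pow, div_pow, mul_pow, h3, ← add_div, div_eq_one_iff_eq (by positivity)]
  have h4 : z.im ^ 2 = 1 - z.re ^ 2 := by linarith
  rw [h4]
  ring

lemma bo_inv {K : ℝ} (hK : |K| < 1) {z : ℂ} (h : Un z) : bo (-K) (bo K z) = z := by
  have h1 := den_pos hK h
  have h2 := one_sub_sq_pos hK
  have h3 : √(1 - K ^ 2) ^ 2 = 1 - K ^ 2 := Real.sq_sqrt h2.le
  have h5 : 1 + -K * ((z.re + K) / (1 + K * z.re)) = (1 - K ^ 2) / (1 + K * z.re) := by
    field_simp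
    ring
  apply Complex.ext
  · simp only [bo]
    have h1' : 1 + K * z.re ≠ 0 := h1.ne'
    have h6 : (1 - K ^ 2) / (1 + K * z.re) ≠ 0 := (div_pos h2 h1).ne'
    rw [h5, div_eq_iff h6]
    have h7 : (z.re + K) / (1 + K * z.re) + -K = z.re * (1 - K ^ 2) / (1 + K * z.re) := by
      rw [eq_div_iff h1', add_mul, div_mul_cancel₀ _ h1']
      ring
    rw [h7]
    ring
  · simp only [bo]
    rw [h5, neg_sq]
    field_simp
    rw [h3]

lemma nrm_pos {c : ℝ} (hc : 0 < c) {z : ℂ} (h : Un z) : 0 < z.re ^ 2 + c ^ 2 * z.im ^ 2 := by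
  unfold Un at h
  by_cases h0 : z.re = 0
  · rw [h0] at h ⊢
    have : z.im ^ 2 = 1 := by linarith
    rw [this]
    positivity
  · positivity

lemma ps_unit {c : ℝ} (hc : 0 < c) {z : ℂ} (h : Un z) : Un (ps c z) := by
  have h1 := nrm_pos hc h
  have h3 : √(z.re ^ 2 + c ^ 2 * z.im ^ 2) ^ 2 = z.re ^ 2 + c ^ 2 * z.im ^ 2 :=
    Real.sq_sqrt h1.le
  unfold Un
  simp only [ps]
  rw [div_pow, div_pow, h3, ← add_div, div_eq_one_iff_eq h1.ne']
  ring

lemma ps_inv {c : ℝ} (hc : 0 < c) {z : ℂ} (h : Un z) : ps c⁻¹ (ps c z) = z := by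
  have h1 := nrm_pos hc h
  set n := √(z.re ^ 2 + c ^ 2 * z.im ^ 2) with hn
  have hnp : 0 < n := Real.sqrt_pos.2 h1
  have h3 : n ^ 2 = z.re ^ 2 + c ^ 2 * z.im ^ 2 := Real.sq_sqrt h1.le
  have h4 : √((z.re / n) ^ 2 + c⁻¹ ^ 2 * (c * z.im / n) ^ 2) = 1 / n := by
    have : (z.re / n) ^ 2 + c⁻¹ ^ 2 * (c * z.im / n) ^ 2 = (1 / n) ^ 2 := by
      unfold Un at h
      field_simp
      linarith
    rw [this, Real.sqrt_sq (by positivity)]
  apply Complex.ext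
  · simp only [ps]
    rw [← hn, h4]
    field_simp
  · simp only [ps]
    rw [← hn, h4]
    field_simp

lemma sh_unit {c K : ℝ} (hc : 0 < c) (hK : |K| < 1) {z : ℂ} (h : Un z) : Un (sh c K z) :=
  bo_unit hK (ps_unit hc (bo_unit hK h))

lemma sh_inv {c K : ℝ} (hc : 0 < c) (hK : |K| < 1) {z : ℂ} (h : Un z) :
    sh c⁻¹ (-K) (sh c K z) = z := by
  unfold sh
  rw [bo_inv hK (ps_unit hc (bo_unit hK h)), ps_inv hc (bo_unit hK h), bo_inv hK h]

lemma contDiffAt_mk {F : Type*} [NormedAddCommGroup F] [NormedSpace ℝ F] {n : WithTop ℕ∞}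
    {a b : F → ℝ} {x : F} (ha : ContDiffAt ℝ n a x) (hb : ContDiffAt ℝ n b x) :
    ContDiffAt ℝ n (fun y => (⟨a y, b y⟩ : ℂ)) x := by
  have h1 : ContDiffAt ℝ n (fun y => Complex.equivRealProdCLM.symm (a y, b y)) x :=
    Complex.equivRealProdCLM.symm.contDiff.contDiffAt.comp x (ha.prodMk hb)
  exact h1

lemma contDiff_re {n : WithTop ℕ∞} : ContDiff ℝ n Complex.re := Complex.reCLM.contDiff
lemma contDiff_im {n : WithTop ℕ∞} : ContDiff ℝ n Complex.im := Complex.imCLM.contDiff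

lemma bo_contDiffAt {F : Type*} [NormedAddCommGroup F] [NormedSpace ℝ F] {n : WithTop ℕ∞}
    {K : F → ℝ} {g : F → ℂ} {x : F} (hK : ContDiffAt ℝ n K x) (hg : ContDiffAt ℝ n g x)
    (h1 : |K x| < 1) (h2 : Un (g x)) : ContDiffAt ℝ n (fun y => bo (K y) (g y)) x := by
  have hre : ContDiffAt ℝ n (fun y => (g y).re) x := contDiff_re.contDiffAt.comp x hg
  have him : ContDiffAt ℝ n (fun y => (g y).im) x := contDiff_im.contDiffAt.comp x hg
  have hden : ContDiffAt ℝ n (fun y => 1 + K y * (g y).re) x :=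
    contDiffAt_const.add (hK.mul hre)
  have hne : 1 + K x * (g x).re ≠ 0 := (den_pos h1 h2).ne'
  have hsq : ContDiffAt ℝ n (fun y => √(1 - K y ^ 2)) x :=
    (contDiffAt_const.sub (hK.pow 2)).sqrt (one_sub_sq_pos h1).ne'
  exact contDiffAt_mk ((hre.add hK).div hden hne) ((him.mul hsq).div hden hne)

lemma ps_contDiffAt {F : Type*} [NormedAddCommGroup F] [NormedSpace ℝ F] {n : WithTop ℕ∞}
    {c : ℝ} {g : F → ℂ} {x : F} (hc : 0 < c) (hg : ContDiffAt ℝ n g x)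
    (h2 : Un (g x)) : ContDiffAt ℝ n (fun y => ps c (g y)) x := by
  have hre : ContDiffAt ℝ n (fun y => (g y).re) x := contDiff_re.contDiffAt.comp x hg
  have him : ContDiffAt ℝ n (fun y => (g y).im) x := contDiff_im.contDiffAt.comp x hg
  have hne : (g x).re ^ 2 + c ^ 2 * (g x).im ^ 2 ≠ 0 := (nrm_pos hc h2).ne'
  have hsq : ContDiffAt ℝ n (fun y => √((g y).re ^ 2 + c ^ 2 * (g y).im ^ 2)) x :=
    ((hre.pow 2).add (contDiffAt_const.mul (him.pow 2))).sqrt hne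
  have hne2 : √((g x).re ^ 2 + c ^ 2 * (g x).im ^ 2) ≠ 0 :=
    (Real.sqrt_pos.2 (nrm_pos hc h2)).ne'
  exact contDiffAt_mk (hre.div hsq hne2) ((contDiffAt_const.mul him).div hsq hne2)

lemma sh_contDiffAt {F : Type*} [NormedAddCommGroup F] [NormedSpace ℝ F] {n : WithTop ℕ∞}
    {c : ℝ} {K : F → ℝ} {g : F → ℂ} {x : F} (hc : 0 < c) (hK : ContDiffAt ℝ n K x)
    (hg : ContDiffAt ℝ n g x) (h1 : |K x| < 1) (h2 : Un (g x)) :
    ContDiffAt ℝ n (fun y => sh c (K y) (g y)) x := by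
  have e1 := bo_contDiffAt hK hg h1 h2
  have e2 := ps_contDiffAt hc e1 (bo_unit h1 h2)
  exact bo_contDiffAt hK e2 h1 (ps_unit hc (bo_unit h1 h2))

end Pool.Agent.Q181.RF
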