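import Pool.Agent.Q181.RF.Dyn

set_option autoImplicit false

namespace Pool.Agent.Q181.RF

open MeasureTheory Filter Topology

/-- an integrable function that does not increase along a measure preserving map is invariant -/
lemma ae_eq_of_le {X : Type*} [MeasurableSpace X] {ρ : Measure X}
    {T : X → X} (hT : MeasurePreserving T ρ ρ) {g : X → ℝ} (hg : Integrable g ρ)
    (hle : ∀ x, g (T x) ≤ g x) : ∀ᵐ x ∂ρ, g (T x) = g x := by
  have h1 : Integrable (fun x => g (T x)) ρ := by
    have := (hT.integrable_comp hg.aestronglyMeasurable).2 hg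
    exact this
  have h2 : ∫ x, g (T x) ∂ρ = ∫ x, g x ∂ρ := by
    have h3 := integral_map (μ := ρ) (φ := T) hT.measurable.aemeasurable
      (f := g) (by rw [hT.map_eq]; exact hg.aestronglyMeasurable)
    rw [hT.map_eq] at h3
    exact h3.symm
  have h4 : ∫ x, (g x - g (T x)) ∂ρ = 0 := by
    rw [integral_sub hg h1, h2, sub_self]
  have h5 : 0 ≤ᵐ[ρ] fun x => g x - g (T x) :=
    Eventually.of_forall (fun x => sub_nonneg.2 (hle x))
  rw [integral_eq_zero_iff_of_nonneg_ae h5 (hg.sub h1)] at h4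
  filter_upwards [h4] with x hx
  simp only [Pi.zero_apply] at hx
  linarith

lemma f_fst (p : T2) : (f p).1 = (T1 p).1 := rfl

/-- the vertices and the centres -/
def Vtx (p : T2) : Prop := (p.1 : ℂ).im = 0 ∧ (p.2 : ℂ).im = 0
def Ctr (p : T2) : Prop := (p.1 : ℂ).re = 0 ∧ (p.2 : ℂ).re = 0

lemma re_sq_of_im {z : Circle} (h : (z : ℂ).im = 0) : (z : ℂ).re = 1 ∨ (z : ℂ).re = -1 := by
  have h1 := Un_coe z
  unfold Un at h1
  rw [h] at h1
  have : ((z : ℂ).re - 1) * ((z : ℂ).re + 1) = 0 := by linear_combination h1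
  rcases mul_eq_zero.1 this with h2 | h2
  · left; linarith
  · right; linarith

lemma im_sq_of_re {z : Circle} (h : (z : ℂ).re = 0) : (z : ℂ).im = 1 ∨ (z : ℂ).im = -1 := by
  have h1 := Un_coe z
  unfold Un at h1
  rw [h] at h1
  have : ((z : ℂ).im - 1) * ((z : ℂ).im + 1) = 0 := by linear_combination h1
  rcases mul_eq_zero.1 this with h2 | h2
  · left; linarith
  · right; linarith

lemma T1_of_im {p : T2} (h : (p.1 : ℂ).im = 0) : T1 p = p := by
  apply Prod.ext
  · apply Circle.ext
    rw [T1_fst, sh_fix (by norm_num) (par_lt hk1 p.2) (Un_coe p.1) h]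
  · rfl

lemma T2_of_im {p : T2} (h : (p.2 : ℂ).im = 0) : T2' p = p := by
  apply Prod.ext
  · rfl
  · apply Circle.ext
    rw [T2_snd, sh_fix (by norm_num) (par_lt hk2 p.1) (Un_coe p.2) h]

lemma f_fst_im (p : T2) : ((f p).1 : ℂ).im = 0 ↔ (p.1 : ℂ).im = 0 := by
  rw [f_fst, T1_fst]
  exact sh_im_zero (by norm_num) (par_lt hk1 p.2) (Un_coe p.1)

lemma f_snd_im (p : T2) : ((f p).2 : ℂ).im = 0 ↔ (p.2 : ℂ).im = 0 := by
  rw [f_apply, T2_snd]
  exact sh_im_zero (by norm_num) (par_lt hk2 _) (Un_coe _)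

lemma prod_A {p : T2} (h : (p.1 : ℂ).im = 0) (h' : (p.2 : ℂ).im ≠ 0) :
    (p.1 : ℂ).re * (p.2 : ℂ).re < ((f p).1 : ℂ).re * ((f p).2 : ℂ).re := by
  rw [f_apply, T1_of_im h, T2_fst, T2_snd]
  have he := edge (Un_coe p.2) h'
  rcases re_sq_of_im h with h1 | h1
  · rw [h1, mul_one, one_mul, one_mul]
    exact he.1
  · rw [h1]
    have : (17 / 18 : ℝ) * -1 = -(17 / 18) := by norm_num
    rw [this]
    linarith [he.2]

lemma prod_B {p : T2} (h : (p.2 : ℂ).im = 0) (h' : (p.1 : ℂ).im ≠ 0) :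
    ((f p).1 : ℂ).re * ((f p).2 : ℂ).re < (p.1 : ℂ).re * (p.2 : ℂ).re := by
  rw [f_apply, T2_of_im (p := T1 p) h, T1_fst, T1_snd]
  have he := edge (Un_coe p.1) h'
  rcases re_sq_of_im h with h1 | h1
  · rw [h1, mul_one, mul_one, mul_one]
    exact he.2
  · rw [h1]
    have : (-(17 / 18) : ℝ) * -1 = 17 / 18 := by norm_num
    rw [this]
    linarith [he.1]

lemma im_sq_of_re' {z : ℂ} (hu : Un z) (h : z.re = 0) : z.im ^ 2 = 1 := by
  unfold Un at hu
  rw [h] at hu
  linarith

lemma sh_ctr {z : ℂ} (hu : Un z) (h : z.re = 0) : sh (1 / 2) 0 z = z := by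
  have hb : ∀ w : ℂ, bo 0 w = w := by
    intro w
    apply Complex.ext
    · simp [bo]
    · simp [bo]
  have hp : ps (1 / 2) z = z := by
    have hs : √(z.re ^ 2 + (1 / 2) ^ 2 * z.im ^ 2) = 1 / 2 := by
      rw [h, im_sq_of_re' hu h, Real.sqrt_eq_iff_mul_self_eq (by norm_num) (by norm_num)]
      norm_num
    apply Complex.ext
    · simp only [ps]
      rw [hs, h]
      simp
    · simp only [ps]
      rw [hs]
      ring
  unfold sh
  rw [hb z, hp, hb]

lemma f_Vtx {p : T2} (h : Vtx p) : f p = p := by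
  rw [f_apply, T1_of_im h.1, T2_of_im h.2]

lemma f_Ctr {p : T2} (h : Ctr p) : f p = p := by
  have h1 : T1 p = p := by
    apply Prod.ext
    · apply Circle.ext
      rw [T1_fst, h.2, mul_zero, sh_ctr (Un_coe p.1) h.1]
    · rfl
  rw [f_apply, h1]
  apply Prod.ext
  · rfl
  · apply Circle.ext
    rw [T2_snd, h.1, mul_zero, sh_ctr (Un_coe p.2) h.2]

lemma cont_re : Continuous (fun z : Circle => (z : ℂ).re) :=
  Complex.continuous_re.comp continuous_subtype_val

lemma cont_im : Continuous (fun z : Circle => (z : ℂ).im) :=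
  Complex.continuous_im.comp continuous_subtype_val

lemma cre1 : Continuous (fun p : T2 => (p.1 : ℂ).re) := cont_re.comp continuous_fst
lemma cre2 : Continuous (fun p : T2 => (p.2 : ℂ).re) := cont_re.comp continuous_snd
lemma cim1 : Continuous (fun p : T2 => (p.1 : ℂ).im) := cont_im.comp continuous_fst
lemma cim2 : Continuous (fun p : T2 => (p.2 : ℂ).im) := cont_im.comp continuous_snd

noncomputable instance : MeasurableSpace T2 := borel T2
instance : BorelSpace T2 := ⟨rfl⟩


lemma cont_L : Continuous L := by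
  unfold L
  apply Continuous.div
  · exact cim1.abs.mul cim2.abs
  · exact continuous_const.sub ((continuous_const.mul cre1).mul cre2)
  · intro p
    have h1 := par_lt hk2 p.1
    have h2 := (Un_coe p.2).re_le
    have h3 : |17 / 18 * (p.1 : ℂ).re * (p.2 : ℂ).re| < 1 := by
      rw [abs_mul]
      nlinarith [abs_nonneg (17 / 18 * (p.1 : ℂ).re), abs_nonneg (p.2 : ℂ).re]
    have := (abs_lt.1 h3).2
    linarith

/-- for every invariant probability measure, almost every point is a vertex or a centre -/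
theorem ae_fix (ρ : Measure T2) [IsProbabilityMeasure ρ] (hf : MeasurePreserving f ρ ρ) :
    ∀ᵐ p ∂ρ, Vtx p ∨ Ctr p := by
  have hL : ∀ᵐ p ∂ρ, L (f p) = L p :=
    ae_eq_of_le hf (cont_L.integrable_of_hasCompactSupport (HasCompactSupport.of_compactSpace L))
      (fun p => (L_f p).1)
  set g : T2 → ℝ := fun p => (p.1 : ℂ).re * (p.2 : ℂ).re with hg
  have cg : Continuous g := cre1.mul cre2
  have ig : Integrable g ρ := cg.integrable_of_hasCompactSupport (HasCompactSupport.of_compactSpace g)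
  have cA : IsClosed {p : T2 | (p.1 : ℂ).im = 0} := isClosed_eq cim1 continuous_const
  have cB : IsClosed {p : T2 | (p.2 : ℂ).im = 0} := isClosed_eq cim2 continuous_const
  set A := {p : T2 | (p.1 : ℂ).im = 0} with hA
  set B := {p : T2 | (p.2 : ℂ).im = 0} with hB
  have iA : Integrable (A.indicator (fun p => - g p)) ρ := ig.neg.indicator cA.measurableSet
  have iB : Integrable (B.indicator g) ρ := ig.indicator cB.measurableSet
  have kA : ∀ p, A.indicator (fun p => - g p) (f p) ≤ A.indicator (fun p => - g p) p := by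
    intro p
    by_cases hp : (p.1 : ℂ).im = 0
    · have hp1 : p ∈ A := hp
      have hp2 : f p ∈ A := (f_fst_im p).2 hp
      rw [Set.indicator_of_mem hp1, Set.indicator_of_mem hp2]
      by_cases hw : (p.2 : ℂ).im = 0
      · rw [f_Vtx ⟨hp, hw⟩]
      · exact neg_le_neg (prod_A hp hw).le
    · have hp1 : p ∉ A := hp
      have hp2 : f p ∉ A := fun h => hp ((f_fst_im p).1 h)
      rw [Set.indicator_of_notMem hp1, Set.indicator_of_notMem hp2]
  have kB : ∀ p, B.indicator g (f p) ≤ B.indicator g p := by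
    intro p
    by_cases hp : (p.2 : ℂ).im = 0
    · have hp1 : p ∈ B := hp
      have hp2 : f p ∈ B := (f_snd_im p).2 hp
      rw [Set.indicator_of_mem hp1, Set.indicator_of_mem hp2]
      by_cases hw : (p.1 : ℂ).im = 0
      · rw [f_Vtx ⟨hw, hp⟩]
      · exact (prod_B hp hw).le
    · have hp1 : p ∉ B := hp
      have hp2 : f p ∉ B := fun h => hp ((f_snd_im p).1 h)
      rw [Set.indicator_of_notMem hp1, Set.indicator_of_notMem hp2]
  filter_upwards [hL, ae_eq_of_le hf iA kA, ae_eq_of_le hf iB kB] with p h1 h2 h3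
  have a1 : (p.1 : ℂ).im = 0 → (p.2 : ℂ).im = 0 := by
    intro hp
    by_contra hw
    have hp1 : p ∈ A := hp
    have hp2 : f p ∈ A := (f_fst_im p).2 hp
    rw [Set.indicator_of_mem hp1, Set.indicator_of_mem hp2] at h2
    have := prod_A hp hw
    simp only [hg] at h2
    linarith
  have a2 : (p.2 : ℂ).im = 0 → (p.1 : ℂ).im = 0 := by
    intro hp
    by_contra hw
    have hp1 : p ∈ B := hp
    have hp2 : f p ∈ B := (f_snd_im p).2 hp
    rw [Set.indicator_of_mem hp1, Set.indicator_of_mem hp2] at h3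
    have := prod_B hp hw
    simp only [hg] at h3
    linarith
  rcases (L_f p).2 h1 with h4 | h4 | h4
  · exact Or.inl ⟨h4, a1 h4⟩
  · exact Or.inl ⟨a2 h4, h4⟩
  · exact Or.inr h4

end Pool.Agent.Q181.RF
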